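import Mathlib

set_option autoImplicit false

namespace Pool.Agent.MP97f6bf

open Set Function

/-- The bases of `N` are the sets `B` for which `B ∪ X` is a base of `M`. -/
structure BaseForm {α : Type} (M N : Matroid α) (X : Set α) : Prop where
  sub : N.E ⊆ M.E
  disj : Disjoint X N.E
  subX : X ⊆ M.E
  iff : ∀ B, B ⊆ N.E → (N.IsBase B ↔ M.IsBase (B ∪ X))

theorem spanning_isBase_of_ncard {α : Type} {M : Matroid α} [M.Finite] {S B : Set α}
    (hS : M.closure S = M.E) (hSE : S ⊆ M.E) (hB : M.IsBase B) (hc : S.ncard ≤ B.ncard) :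
    M.IsBase S := by
  have hsp : M.Spanning S := by
    rw [Matroid.spanning_iff_closure_eq]; exact hS
  obtain ⟨B', hB', hB'S⟩ := hsp.exists_isBase_subset
  have h1 : B'.ncard = B.ncard := hB'.ncard_eq_ncard_of_isBase hB
  have hfin : S.Finite := M.ground_finite.subset hSE
  have : B' = S := Set.eq_of_subset_of_ncard_le hB'S (by omega) hfin
  rw [← this]; exact hB'

theorem exists_baseForm {α : Type} {M N : Matroid α} [M.Finite] (h : N.IsMinor M) :
    ∃ X, BaseForm M N X := by
  obtain ⟨C, D, hC, hD, hCD, rfl⟩ := h.exists_eq_contract_delete_disjoint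
  obtain ⟨I, hI⟩ := M.exists_isBasis C
  rw [hI.contract_eq_contract_delete, Matroid.delete_delete]
  set D' := C \ I ∪ D with hD'
  have hID' : Disjoint I D' := by
    rw [hD', Set.disjoint_union_right]
    exact ⟨disjoint_sdiff_right, hCD.mono_left hI.subset⟩
  set F : Set α := (M.E \ I) \ D' with hF
  have hNE : ((M.contract I).delete D').E = F := rfl
  have hFM : F ⊆ M.E := fun x hx => hx.1.1
  have hIM : I ⊆ M.E := hI.subset.trans hC
  have hFI : Disjoint F I := by
    rw [Set.disjoint_left]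
    intro x hx hx2
    exact hx.1.2 hx2
  have hbase : ∀ B, B ⊆ F → (((M.contract I).delete D').IsBase B ↔ M.IsBasis (B ∪ I) (F ∪ I)) := by
    intro B hB
    rw [Matroid.delete_isBase_iff]
    constructor
    · intro h
      exact hI.indep.union_isBasis_union_of_contract_isBasis h
    · intro h
      exact h.contract_isBasis_union_union (hFI.mono_left hB) hFI
  obtain ⟨B₀, hB₀⟩ := ((M.contract I).delete D').exists_isBase
  have hB₀F : B₀ ⊆ F := hB₀.subset_ground
  have h₀ : M.IsBasis (B₀ ∪ I) (F ∪ I) := (hbase B₀ hB₀F).1 hB₀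
  obtain ⟨Bp, hBp, hBpI⟩ := h₀.exists_isBase
  set J := Bp \ (F ∪ I) with hJ
  have hBpE : Bp ⊆ M.E := hBp.subset_ground
  have hBpeq : Bp = B₀ ∪ I ∪ J := by
    rw [hBpI, hJ]
    exact (Set.inter_union_sdiff Bp (F ∪ I)).symm
  have hJF : Disjoint J F := by
    rw [Set.disjoint_left]
    intro x hx hx2
    exact hx.2 (Or.inl hx2)
  have hJI : Disjoint J I := by
    rw [Set.disjoint_left]
    intro x hx hx2
    exact hx.2 (Or.inr hx2)
  have hfin : ∀ S : Set α, S ⊆ M.E → S.Finite := fun S hS => M.ground_finite.subset hS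
  have hJE : J ⊆ M.E := fun x hx => hBpE hx.1
  have hcard : ∀ B, B ⊆ F → (B ∪ (I ∪ J)).ncard = B.ncard + (I ∪ J).ncard := by
    intro B hB
    apply Set.ncard_union_eq
    · rw [Set.disjoint_union_right]
      exact ⟨hFI.mono_left hB, (hJF.mono_right hB).symm⟩
    · exact hfin _ (hB.trans hFM)
    · exact hfin _ (Set.union_subset hIM hJE)
  refine ⟨I ∪ J, hFM, ?_, Set.union_subset hIM hJE, ?_⟩
  · rw [hNE, Set.disjoint_union_left]
    exact ⟨hFI.symm, hJF⟩
  · intro B hB
    rw [hNE] at hB
    rw [hbase B hB]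
    constructor
    · intro h
      have hc1 : M.closure (B ∪ I) = M.closure (B₀ ∪ I) := by
        rw [h.closure_eq_closure, h₀.closure_eq_closure]
      have hc2 : M.closure (B ∪ I ∪ J) = M.E := by
        rw [Matroid.closure_union_congr_left hc1, ← hBpeq]
        exact hBp.closure_eq
      have hB2 : ((M.contract I).delete D').IsBase B := (hbase B hB).2 h
      have hc3 : B.ncard = B₀.ncard := hB2.ncard_eq_ncard_of_isBase hB₀
      rw [Set.union_assoc] at hc2
      apply spanning_isBase_of_ncard hc2 _ hBp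
      · rw [hcard B hB, hBpeq, Set.union_assoc, hcard B₀ hB₀F, hc3]
      · exact Set.union_subset (hB.trans hFM) (Set.union_subset hIM hJE)
    · intro h
      have hind : M.Indep (B ∪ I) := h.indep.subset (by
        rw [← Set.union_assoc]; exact Set.subset_union_left)
      have hc3 : B.ncard = B₀.ncard := by
        have := h.ncard_eq_ncard_of_isBase hBp
        rw [hcard B hB, hBpeq, Set.union_assoc, hcard B₀ hB₀F] at this
        omega
      have hfin1 : (B ∪ I).Finite := hfin _ (Set.union_subset (hB.trans hFM) hIM)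
      have hfin0 : (B₀ ∪ I).Finite := hfin _ (Set.union_subset (hB₀F.trans hFM) hIM)
      rw [Matroid.isBasis_iff_indep_encard_eq_of_finite hfin1 (Set.union_subset hFM hIM)]
      refine ⟨Set.union_subset_union_left _ hB, hind, ?_⟩
      rw [← h₀.encard_eq_eRk, ← hfin1.cast_ncard_eq, ← hfin0.cast_ncard_eq]
      rw [Set.ncard_union_eq (hFI.mono_left hB) (hfin _ (hB.trans hFM)) (hfin _ hIM),
        Set.ncard_union_eq (hFI.mono_left hB₀F) (hfin _ (hB₀F.trans hFM)) (hfin _ hIM), hc3]

theorem BaseForm.trans {α : Type} {M N N' : Matroid α} {X X' : Set α}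
    (h : BaseForm M N X) (h' : BaseForm N N' X') : BaseForm M N' (X' ∪ X) where
  sub := h'.sub.trans h.sub
  disj := by
    rw [Set.disjoint_union_left]
    exact ⟨h'.disj, h.disj.mono_right h'.sub⟩
  subX := Set.union_subset (h'.subX.trans h.sub) h.subX
  iff := by
    intro B hB
    rw [h'.iff B hB, h.iff (B ∪ X') (Set.union_subset (hB.trans h'.sub) h'.subX),
      Set.union_assoc]

/-- Isomorphism in the form used by the frozen statement, in terms of bases. -/
theorem isBase_of_iso {α β : Type} {N : Matroid α} {N₁ : Matroid β}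
    (e : ↥N.E ≃ ↥N₁.E)
    (he : ∀ I : Set ↥N.E, N.Indep (Subtype.val '' I) ↔ N₁.Indep (Subtype.val '' (e '' I)))
    (I : Set ↥N.E) : N.IsBase (Subtype.val '' I) ↔ N₁.IsBase (Subtype.val '' (e '' I)) := by
  rw [Matroid.isBase_iff_maximal_indep, Matroid.isBase_iff_maximal_indep]
  constructor
  · rintro ⟨h1, h2⟩
    refine ⟨(he I).1 h1, ?_⟩
    intro J hJ hIJ
    have hJE : J ⊆ N₁.E := hJ.subset_ground
    set J' : Set ↥N.E := {x | (e x).1 ∈ J} with hJ'
    have hJJ' : Subtype.val '' (e '' J') = J := by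
      ext y
      constructor
      · rintro ⟨_, ⟨x, hx, rfl⟩, rfl⟩
        exact hx
      · intro hy
        refine ⟨⟨y, hJE hy⟩, ⟨e.symm ⟨y, hJE hy⟩, ?_, ?_⟩, rfl⟩
        · simp [hJ', hy]
        · simp
    have h3 : N.Indep (Subtype.val '' J') := by
      rw [he J', hJJ']; exact hJ
    have h4 : Subtype.val '' I ⊆ Subtype.val '' J' := by
      apply Set.image_mono
      intro x hx
      exact hIJ ⟨e x, ⟨x, hx, rfl⟩, rfl⟩
    have h5 : (Subtype.val '' J' : Set α) ⊆ Subtype.val '' I := h2 h3 h4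
    have h6 : J' ⊆ I := by
      intro x hx
      obtain ⟨z, hz, hz2⟩ := h5 ⟨x, hx, rfl⟩
      rw [← Subtype.ext hz2]; exact hz
    rw [← hJJ']
    exact Set.image_mono (Set.image_mono h6)
  · rintro ⟨h1, h2⟩
    refine ⟨(he I).2 h1, ?_⟩
    intro J hJ hIJ
    have hJE : J ⊆ N.E := hJ.subset_ground
    set J' : Set ↥N.E := {x | x.1 ∈ J} with hJ'
    have hJJ' : Subtype.val '' J' = J := by
      ext y
      constructor
      · rintro ⟨x, hx, rfl⟩
        exact hx
      · intro hy
        exact ⟨⟨y, hJE hy⟩, hy, rfl⟩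
    have h3 : N₁.Indep (Subtype.val '' (e '' J')) := by
      rw [← he J', hJJ']; exact hJ
    have h4 : (Subtype.val '' (e '' I)) ⊆ (Subtype.val '' (e '' J')) := by
      apply Set.image_mono
      apply Set.image_mono
      intro x hx
      exact hIJ ⟨x, hx, rfl⟩
    have h5 := h2 h3 h4
    have h6 : J' ⊆ I := by
      intro x hx
      obtain ⟨z, ⟨w, hw, rfl⟩, hz2⟩ := h5 ⟨e x, ⟨x, hx, rfl⟩, rfl⟩
      have : w = x := e.injective (Subtype.ext hz2)
      rw [← this]; exact hw
    rw [← hJJ']
    exact Set.image_mono h6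

end Pool.Agent.MP97f6bf
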