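import Mathlib
set_option autoImplicit false
/-!
# Caterpillars

The caterpillar with `2 m` vertices is a tree with all degrees `1` or `3` and `m + 1` leaves.
-/

namespace Pool.Agent.MP97f6bf.Cat
open Set Function

/-- the father of a vertex of the caterpillar -/
def par (v : ℕ) : ℕ := if v % 2 = 0 then v - 1 else v - 2

lemma par_lt {v : ℕ} (h : v ≠ 0) : par v < v := by
  unfold par; split_ifs <;> omega

/-- a caterpillar with `2 m` vertices -/
def cat (m : ℕ) : SimpleGraph (Fin (2 * m)) where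
  Adj u v := (v.val ≠ 0 ∧ par v.val = u.val) ∨ (u.val ≠ 0 ∧ par u.val = v.val)
  symm := ⟨fun u v h => h.symm⟩
  loopless := ⟨by
    rintro v (⟨h, h2⟩ | ⟨h, h2⟩) <;> exact absurd h2 (par_lt h).ne⟩

lemma cat_adj {m : ℕ} {u v : Fin (2 * m)} : (cat m).Adj u v ↔
    ((v.val ≠ 0 ∧ par v.val = u.val) ∨ (u.val ≠ 0 ∧ par u.val = v.val)) := Iff.rfl

lemma cat_reach {m : ℕ} (hm : 1 ≤ m) : ∀ (n : ℕ) (h : n < 2 * m),
    (cat m).Reachable ⟨n, h⟩ ⟨0, by omega⟩ := by
  intro n
  induction n using Nat.strong_induction_on with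
  | _ n ih =>
    intro h
    by_cases h0 : n = 0
    · subst h0; exact SimpleGraph.Reachable.refl _
    · have h1 := par_lt h0
      have h2 : (cat m).Adj ⟨n, h⟩ ⟨par n, by omega⟩ := cat_adj.2 (Or.inr ⟨h0, rfl⟩)
      exact h2.reachable.trans (ih _ h1 _)

lemma cat_tree {m : ℕ} (hm : 1 ≤ m) : (cat m).IsTree := by
  have hc : (cat m).Connected := by
    have : Nonempty (Fin (2 * m)) := ⟨⟨0, by omega⟩⟩
    exact ⟨fun u v => (cat_reach hm u.val u.isLt).trans (cat_reach hm v.val v.isLt).symm⟩
  rw [SimpleGraph.isTree_iff_connected_and_card]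
  refine ⟨hc, le_antisymm ?_ hc.card_vert_le_card_edgeSet_add_one⟩
  have h1 : (cat m).edgeSet ⊆ range (fun i : Fin (2 * m - 1) =>
      s((⟨i.val + 1, by omega⟩ : Fin (2 * m)), ⟨par (i.val + 1), by
        have := par_lt (v := i.val + 1) (by omega); omega⟩)) := by
    intro e
    induction e using Sym2.ind with
    | _ u v =>
      intro he
      rw [SimpleGraph.mem_edgeSet, cat_adj] at he
      rcases he with ⟨h, h2⟩ | ⟨h, h2⟩
      · refine ⟨⟨v.val - 1, by omega⟩, ?_⟩
        have h3 : v.val - 1 + 1 = v.val := by omega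
        rw [Sym2.eq_iff]
        right
        constructor
        · ext; exact h3
        · ext; show par (v.val - 1 + 1) = u.val; rw [h3, h2]
      · refine ⟨⟨u.val - 1, by omega⟩, ?_⟩
        have h3 : u.val - 1 + 1 = u.val := by omega
        rw [Sym2.eq_iff]
        left
        constructor
        · ext; exact h3
        · ext; show par (u.val - 1 + 1) = v.val; rw [h3, h2]
  have h2 := Set.ncard_le_ncard h1 (Set.toFinite _)
  have h3 : (range (fun i : Fin (2 * m - 1) =>
      s((⟨i.val + 1, by omega⟩ : Fin (2 * m)), ⟨par (i.val + 1), by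
        have := par_lt (v := i.val + 1) (by omega); omega⟩))).ncard ≤ 2 * m - 1 := by
    rw [← Set.image_univ]
    refine (Set.ncard_image_le (Set.toFinite _)).trans ?_
    rw [Set.ncard_univ, Nat.card_fin]
  rw [Nat.card_coe_set_eq, Nat.card_fin]
  omega

lemma cat_leaf {m : ℕ} (hm : 1 ≤ m) (v : Fin (2 * m)) (h : v.val % 2 = 0 ∨ v.val = 2 * m - 1) :
    ((cat m).neighborSet v).ncard = 1 := by
  rw [Set.ncard_eq_one]
  by_cases h0 : v.val = 0
  · refine ⟨⟨1, by omega⟩, ?_⟩
    ext u
    rw [SimpleGraph.mem_neighborSet, cat_adj, Set.mem_singleton_iff, Fin.ext_iff]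
    unfold par
    simp only
    split_ifs <;> omega
  · refine ⟨⟨par v.val, by have := par_lt h0; omega⟩, ?_⟩
    ext u
    rw [SimpleGraph.mem_neighborSet, cat_adj, Set.mem_singleton_iff, Fin.ext_iff]
    have := u.isLt
    unfold par
    simp only
    split_ifs <;> omega

lemma cat_inner {m : ℕ} (v : Fin (2 * m)) (h : v.val % 2 = 1) (h' : v.val ≠ 2 * m - 1) :
    ((cat m).neighborSet v).ncard = 3 := by
  have hv := v.isLt
  have h0 : v.val ≠ 0 := by omega
  have hp := par_lt h0
  rw [Set.ncard_eq_three]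
  refine ⟨⟨par v.val, by omega⟩, ⟨v.val + 1, by omega⟩, ⟨v.val + 2, by omega⟩, ?_, ?_, ?_, ?_⟩
  · rw [Ne, Fin.ext_iff]; simp only; omega
  · rw [Ne, Fin.ext_iff]; simp only; omega
  · rw [Ne, Fin.ext_iff]; simp only; omega
  · ext u
    simp only [SimpleGraph.mem_neighborSet, cat_adj, Set.mem_insert_iff, Set.mem_singleton_iff,
      Fin.ext_iff]
    have := u.isLt
    unfold par
    split_ifs <;> omega

lemma cat_deg {m : ℕ} (hm : 1 ≤ m) (v : Fin (2 * m)) :
    ((cat m).neighborSet v).ncard = 1 ∨ ((cat m).neighborSet v).ncard = 3 := by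
  by_cases h : v.val % 2 = 0 ∨ v.val = 2 * m - 1
  · exact Or.inl (cat_leaf hm v h)
  · push Not at h
    exact Or.inr (cat_inner v (by omega) h.2)

lemma cat_card {m : ℕ} (hm : 1 ≤ m) :
    Nat.card {v : Fin (2 * m) // ((cat m).neighborSet v).ncard = 1} = m + 1 := by
  let g : Fin (m + 1) → {v : Fin (2 * m) // ((cat m).neighborSet v).ncard = 1} := fun i =>
    if h : i.val < m then ⟨⟨2 * i.val, by omega⟩, cat_leaf hm _ (Or.inl (by simp))⟩
    else ⟨⟨2 * m - 1, by omega⟩, cat_leaf hm _ (Or.inr rfl)⟩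
  have hg : Bijective g := by
    constructor
    · intro i j hij
      have hi := i.isLt
      have hj := j.isLt
      simp only [g] at hij
      rw [Fin.ext_iff]
      split_ifs at hij <;> simp only [Subtype.mk.injEq, Fin.mk.injEq] at hij <;> omega
    · rintro ⟨v, hv⟩
      have hvl := v.isLt
      by_cases h : v.val % 2 = 0
      · refine ⟨⟨v.val / 2, by omega⟩, ?_⟩
        simp only [g]
        rw [dif_pos (by omega)]
        rw [Subtype.mk.injEq, Fin.ext_iff]
        simp only
        omega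
      · by_cases h2 : v.val = 2 * m - 1
        · refine ⟨⟨m, by omega⟩, ?_⟩
          simp only [g]
          rw [dif_neg (by omega)]
          rw [Subtype.mk.injEq, Fin.ext_iff]
          exact h2.symm
        · have := cat_inner v (by omega) h2
          omega
  have := Nat.card_congr (Equiv.ofBijective g hg)
  rw [Nat.card_fin] at this
  exact this.symm
end Pool.Agent.MP97f6bf.Cat
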