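import Mathlib

set_option autoImplicit false

namespace Pool.Agent.MP97f6bf

open Set Function

variable {V : Type}

/-- The edge `e = (w, c)` has the two ends `w` and `σ c w`. -/
def Inc (σ : Bool → Equiv.Perm V) (v : V) (e : V × Bool) : Prop :=
  e.1 = v ∨ σ e.2 e.1 = v

/-- `H` is the range of a system of distinct incident edges, one for every vertex. -/
def IsTr (σ : Bool → Equiv.Perm V) (H : Set (V × Bool)) : Prop :=
  ∃ φ : V → V × Bool, Injective φ ∧ (∀ v, Inc σ v (φ v)) ∧ range φ = H

theorem exch_aux [Finite V] (σ : Bool → Equiv.Perm V) (ψ : V → V × Bool) (hψ : Injective ψ)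
    (hψi : ∀ v, Inc σ v (ψ v)) (n : ℕ) :
    ∀ (φ : V → V × Bool) (v₀ : V), Injective φ → (∀ v, v ≠ v₀ → Inc σ v (φ v)) →
      φ v₀ ∉ range ψ → {v | φ v ≠ ψ v}.ncard ≤ n →
      ∃ y ∈ range ψ \ range φ, IsTr σ (insert y (range φ \ {φ v₀})) := by
  classical
  induction n with
  | zero =>
    intro φ v₀ hφ hφi h0 hn
    exfalso
    have : {v | φ v ≠ ψ v} = ∅ := by
      rw [← Set.ncard_eq_zero (Set.toFinite _)]; omega
    have h1 : v₀ ∈ {v | φ v ≠ ψ v} := fun h => h0 ⟨v₀, h.symm⟩
    rw [this] at h1
    exact h1
  | succ n ih =>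
    intro φ v₀ hφ hφi h0 hn
    by_cases he : ψ v₀ ∈ range φ
    · obtain ⟨v₁, hv₁⟩ := he
      have hne : v₁ ≠ v₀ := by
        rintro rfl
        exact h0 ⟨v₁, hv₁.symm⟩
      set φ' : V → V × Bool := φ ∘ Equiv.swap v₀ v₁ with hφ'
      have e0 : φ' v₀ = ψ v₀ := by simp [hφ', hv₁]
      have e1 : φ' v₁ = φ v₀ := by simp [hφ']
      have e2 : ∀ v, v ≠ v₀ → v ≠ v₁ → φ' v = φ v := by
        intro v h1 h2
        simp [hφ', Equiv.swap_apply_of_ne_of_ne h1 h2]
      have hr : range φ' = range φ := by
        rw [hφ', range_comp, (Equiv.swap v₀ v₁).surjective.range_eq, image_univ]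
      have := ih φ' v₁ (hφ.comp (Equiv.swap v₀ v₁).injective) ?_ ?_ ?_
      · rw [hr, e1] at this
        exact this
      · intro v hv
        by_cases hv0 : v = v₀
        · subst hv0; rw [e0]; exact hψi _
        · rw [e2 v hv0 hv]; exact hφi v hv0
      · rw [e1]; exact h0
      · have hsub : {v | φ' v ≠ ψ v} ⊆ {v | φ v ≠ ψ v} \ {v₀} := by
          intro v hv
          have hv0 : v ≠ v₀ := by
            rintro rfl
            exact hv e0
          refine ⟨?_, hv0⟩
          by_cases hv1 : v = v₁
          · subst hv1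
            intro h
            rw [hv₁] at h
            exact hv0 (hψ h).symm
          · intro h
            apply hv
            rw [e2 v hv0 hv1]; exact h
        have h1 : v₀ ∈ {v | φ v ≠ ψ v} := fun h => h0 ⟨v₀, h.symm⟩
        have := Set.ncard_le_ncard hsub (Set.toFinite _)
        rw [Set.ncard_sdiff_singleton_of_mem h1] at this
        omega
    · refine ⟨ψ v₀, ⟨mem_range_self _, he⟩, ?_⟩
      refine ⟨update φ v₀ (ψ v₀), ?_, ?_, ?_⟩
      · intro a b hab
        by_cases ha : a = v₀
        · by_cases hb : b = v₀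
          · rw [ha, hb]
          · subst ha
            rw [update_self, update_of_ne hb] at hab
            exact absurd ⟨b, hab.symm⟩ he
        · by_cases hb : b = v₀
          · subst hb
            rw [update_self, update_of_ne ha] at hab
            exact absurd ⟨a, hab⟩ he
          · rw [update_of_ne ha, update_of_ne hb] at hab
            exact hφ hab
      · intro v
        by_cases hv : v = v₀
        · subst hv; rw [update_self]; exact hψi _
        · rw [update_of_ne hv]; exact hφi v hv
      · ext e
        constructor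
        · rintro ⟨v, rfl⟩
          by_cases hv : v = v₀
          · subst hv; rw [update_self]; exact mem_insert _ _
          · rw [update_of_ne hv]
            exact mem_insert_of_mem _ ⟨mem_range_self _, fun h => hv (hφ h)⟩
        · rintro (rfl | ⟨⟨v, rfl⟩, hv⟩)
          · exact ⟨v₀, update_self _ _ _⟩
          · have : v ≠ v₀ := by
              rintro rfl
              exact hv rfl
            exact ⟨v, update_of_ne this _ _⟩

theorem IsTr.exchange [Finite V] {σ : Bool → Equiv.Perm V} {B₁ B₂ : Set (V × Bool)}
    (h₁ : IsTr σ B₁) (h₂ : IsTr σ B₂) {x : V × Bool} (hx : x ∈ B₁ \ B₂) :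
    ∃ y ∈ B₂ \ B₁, IsTr σ (insert y (B₁ \ {x})) := by
  obtain ⟨φ, hφ, hφi, rfl⟩ := h₁
  obtain ⟨ψ, hψ, hψi, rfl⟩ := h₂
  obtain ⟨⟨v₀, rfl⟩, hx2⟩ := hx
  exact exch_aux σ ψ hψ hψi _ φ v₀ hφ (fun v _ => hφi v) hx2 le_rfl

theorem IsTr.ncard_eq [Finite V] {σ : Bool → Equiv.Perm V} {B : Set (V × Bool)}
    (h : IsTr σ B) : B.ncard = Nat.card V := by
  obtain ⟨φ, hφ, hφi, rfl⟩ := h
  rw [← Set.image_univ, Set.ncard_image_of_injective _ hφ, Set.ncard_univ]

/-- the transversal given by a choice function -/
def cyc (c : V → Bool) : Set (V × Bool) := {e | e.2 = c e.1}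

theorem cyc_eq_range (c : V → Bool) : cyc c = range (fun v => (v, c v)) := by
  ext ⟨v, b⟩
  constructor
  · intro h
    have h' : b = c v := h
    exact ⟨v, by rw [h']⟩
  · rintro ⟨w, hw⟩
    simp only [Prod.mk.injEq] at hw
    obtain ⟨rfl, rfl⟩ := hw
    rfl

theorem mem_cyc {c : V → Bool} {e : V × Bool} : e ∈ cyc c ↔ e.2 = c e.1 := Iff.rfl

/-- the choice function `c` gives a single cycle through all vertices -/
def Good (σ : Bool → Equiv.Perm V) (c : V → Bool) : Prop :=
  ∀ x y : V, ∃ k : ℕ, (fun v => σ (c v) v)^[k] x = y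

theorem isTr_cyc (σ : Bool → Equiv.Perm V) (c : V → Bool) : IsTr σ (cyc c) := by
  refine ⟨fun v => (v, c v), ?_, ?_, (cyc_eq_range c).symm⟩
  · intro a b h
    exact (Prod.mk.inj h).1
  · intro v
    exact Or.inl rfl

/-- A cycle through all vertices is a free basis. -/
theorem Good.free [Finite V] {σ : Bool → Equiv.Perm V} {c : V → Bool} (hc : Good σ c)
    {e f : V × Bool} (he : e ∉ cyc c) (hf : f ∈ cyc c) :
    IsTr σ (insert e (cyc c \ {f})) := by
  classical
  obtain ⟨x, b⟩ := e
  set e : V × Bool := (x, b) with he'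
  set π : V → V := fun v => σ (c v) v with hπ
  have hπs : Surjective π := by
    intro y
    obtain ⟨k, hk⟩ := hc (π y) y
    refine ⟨π^[k] y, ?_⟩
    have h1 : π^[k+1] y = π (π^[k] y) := Function.iterate_succ_apply' π k y
    rw [← h1, Function.iterate_succ_apply]
    exact hk
  have hπi : Injective π := Finite.injective_iff_surjective.2 hπs
  -- the invariant
  have key : ∀ k : ℕ, ∃ ψ : V → V × Bool, Injective ψ ∧ ψ x = e ∧
      (∀ v, v ≠ x → ψ v = (v, c v) ∨ ∃ w, π w = v ∧ ψ v = (w, c w)) ∧
      range ψ = insert e (cyc c \ {(π^[k] x, c (π^[k] x))}) := by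
    have base : ∃ ψ : V → V × Bool, Injective ψ ∧ ψ x = e ∧
      (∀ v, v ≠ x → ψ v = (v, c v) ∨ ∃ w, π w = v ∧ ψ v = (w, c w)) ∧
      range ψ = insert e (cyc c \ {(x, c x)}) := by
      refine ⟨update (fun v => (v, c v)) x e, ?_, update_self _ _ _, ?_, ?_⟩
      · intro a b' hab
        by_cases ha : a = x
        · by_cases hb : b' = x
          · rw [ha, hb]
          · subst ha
            rw [update_self, update_of_ne hb] at hab
            exact absurd (show e ∈ cyc c by rw [hab]; rfl) he
        · by_cases hb : b' = x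
          · subst hb
            rw [update_self, update_of_ne ha] at hab
            exact absurd (show e ∈ cyc c by rw [← hab]; rfl) he
          · rw [update_of_ne ha, update_of_ne hb] at hab
            exact (Prod.mk.inj hab).1
      · intro v hv
        left
        rw [update_of_ne hv]
      · ext g
        constructor
        · rintro ⟨v, rfl⟩
          by_cases hv : v = x
          · subst hv; rw [update_self]; exact mem_insert _ _
          · rw [update_of_ne hv]
            refine mem_insert_of_mem _ ⟨rfl, ?_⟩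
            intro h
            exact hv (Prod.mk.inj h).1
        · rintro (rfl | ⟨h1, h2⟩)
          · exact ⟨x, update_self _ _ _⟩
          · have h3 : g = (g.1, c g.1) := by
              rw [← mem_cyc.1 h1]
            have : g.1 ≠ x := by
              intro h
              rw [h] at h3
              exact h2 h3
            exact ⟨g.1, by rw [update_of_ne this]; exact h3.symm⟩
    intro k
    induction k with
    | zero => simpa using base
    | succ k ih =>
      rw [Function.iterate_succ_apply']
      set z := π^[k] x with hz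
      by_cases hy : π z = x
      · rw [hy]; exact base
      · obtain ⟨ψ, h1, h2, h3, h4⟩ := ih
        have hfwd : ψ (π z) = (π z, c (π z)) := by
          rcases h3 (π z) hy with h | ⟨w, hw, h⟩
          · exact h
          · exfalso
            have hwz : w = z := hπi hw
            rw [hwz] at h
            have h5 : ψ (π z) ∈ range ψ := mem_range_self _
            rw [h4, h] at h5
            rcases h5 with h5 | h5
            · exact he (by rw [← h5]; rfl)
            · exact h5.2 rfl
        have hzr : (z, c z) ∉ range ψ := by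
          rw [h4]
          rintro (h | h)
          · exact he (by rw [← h]; rfl)
          · exact h.2 rfl
        refine ⟨update ψ (π z) (z, c z), ?_, ?_, ?_, ?_⟩
        · intro a b' hab
          by_cases ha : a = π z
          · by_cases hb : b' = π z
            · rw [ha, hb]
            · subst ha
              rw [update_self, update_of_ne hb] at hab
              exact absurd ⟨b', hab.symm⟩ hzr
          · by_cases hb : b' = π z
            · subst hb
              rw [update_self, update_of_ne ha] at hab
              exact absurd ⟨a, hab⟩ hzr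
            · rw [update_of_ne ha, update_of_ne hb] at hab
              exact h1 hab
        · rw [update_of_ne (Ne.symm hy)]; exact h2
        · intro v hv
          by_cases hvz : v = π z
          · subst hvz
            right
            exact ⟨z, rfl, by rw [update_self]⟩
          · rw [update_of_ne hvz]; exact h3 v hv
        · have hnz : z ≠ π z := by
            intro h
            apply hzr
            exact ⟨π z, by rw [hfwd, ← h]⟩
          ext g
          constructor
          · rintro ⟨v, rfl⟩
            by_cases hv : v = π z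
            · subst hv; rw [update_self]
              refine mem_insert_of_mem _ ⟨rfl, ?_⟩
              intro h
              exact hnz (Prod.mk.inj h).1
            · rw [update_of_ne hv]
              have h5 : ψ v ∈ range ψ := mem_range_self _
              rw [h4] at h5
              rcases h5 with h5 | h5
              · rw [h5]; exact mem_insert _ _
              · refine mem_insert_of_mem _ ⟨h5.1, ?_⟩
                intro h
                rw [mem_singleton_iff, ← hfwd] at h
                exact hv (h1 h)
          · intro hg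
            by_cases hgz : g = (z, c z)
            · exact ⟨π z, by rw [update_self, hgz]⟩
            · have : g ∈ range ψ := by
                rw [h4]
                rcases hg with hg | hg
                · rw [hg]; exact mem_insert _ _
                · exact mem_insert_of_mem _ ⟨hg.1, hgz⟩
              obtain ⟨v, rfl⟩ := this
              have hv : v ≠ π z := by
                rintro rfl
                rcases hg with hg | hg
                · rw [hfwd] at hg
                  exact he (by rw [← hg]; rfl)
                · exact hg.2 (by rw [hfwd]; rfl)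
              exact ⟨v, update_of_ne hv _ _⟩
  obtain ⟨k, hk⟩ := hc x f.1
  obtain ⟨ψ, h1, h2, h3, h4⟩ := key k
  have hk' : π^[k] x = f.1 := hk
  refine ⟨ψ, h1, ?_, ?_⟩
  · intro v
    by_cases hv : v = x
    · subst hv; rw [h2]; exact Or.inl rfl
    · rcases h3 v hv with h | ⟨w, hw, h⟩
      · rw [h]; exact Or.inl rfl
      · rw [h]; exact Or.inr hw
  · rw [h4, hk', ← mem_cyc.1 hf]

/-- The matroid obtained from the bicircular matroid by turning the cycles in `𝓒` into
circuit-hyperplanes. -/
theorem MM_exchange [Finite V] (σ : Bool → Equiv.Perm V) (𝓒 : Set (V → Bool))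
    (hgood : ∀ c ∈ 𝓒, Good σ c)
    (hdist : ∀ c ∈ 𝓒, ∀ c' ∈ 𝓒, c ≠ c' → ∃ v w, v ≠ w ∧ c v ≠ c' v ∧ c w ≠ c' w) :
    Matroid.ExchangeProperty (fun B => IsTr σ B ∧ ∀ c ∈ 𝓒, B ≠ cyc c) := by
  rintro B₁ B₂ ⟨h₁, h₁'⟩ ⟨h₂, h₂'⟩ x hx
  obtain ⟨y, hy, hy'⟩ := h₁.exchange h₂ hx
  by_cases hc : ∃ c ∈ 𝓒, insert y (B₁ \ {x}) = cyc c
  · obtain ⟨c, hc, hB⟩ := hc
    -- find another element
    have hcard : (B₂ \ B₁).ncard ≠ 1 := by
      intro h1
      obtain ⟨z, hz⟩ := Set.ncard_eq_one.1 h1
      have hyz : y = z := by
        have : y ∈ B₂ \ B₁ := hy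
        rw [hz] at this; exact this
      subst hyz
      -- B₂ = insert y (B₁ \ {x})
      have hsub : B₂ ⊆ insert y (B₁ \ {x}) := by
        intro w hw
        by_cases hw1 : w ∈ B₁
        · refine mem_insert_of_mem _ ⟨hw1, ?_⟩
          rintro rfl
          exact hx.2 hw
        · have : w ∈ B₂ \ B₁ := ⟨hw, hw1⟩
          rw [hz] at this
          rw [mem_singleton_iff.1 this]
          exact mem_insert _ _
      have heq : B₂ = insert y (B₁ \ {x}) := by
        apply Set.eq_of_subset_of_ncard_le hsub
        rw [hy'.ncard_eq, h₂.ncard_eq]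
      exact h₂' c hc (heq.trans hB)
    have hpos : 0 < (B₂ \ B₁).ncard := (Set.ncard_pos (Set.toFinite _)).2 ⟨y, hy⟩
    obtain ⟨y', hy'2, hne⟩ := Set.exists_ne_of_one_lt_ncard (show 1 < (B₂ \ B₁).ncard by omega) y
    refine ⟨y', hy'2, ?_⟩
    have hyB : y ∈ cyc c := by rw [← hB]; exact mem_insert _ _
    have hy'B : y' ∉ cyc c := by
      rw [← hB]
      rintro (h | h)
      · exact hne h
      · exact hy'2.2 h.1
    have hset : insert y' (B₁ \ {x}) = insert y' (cyc c \ {y}) := by
      rw [← hB]
      congr 1
      ext w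
      constructor
      · intro hw
        refine ⟨mem_insert_of_mem _ hw, ?_⟩
        rintro rfl
        exact hy.2 hw.1
      · rintro ⟨hw | hw, hw2⟩
        · exact absurd hw hw2
        · exact hw
    rw [hset]
    refine ⟨(hgood c hc).free hy'B hyB, ?_⟩
    intro c' hc' heq
    -- cyc c' differs from cyc c in exactly one element
    have hcc' : c ≠ c' := by
      rintro rfl
      apply hy'B
      rw [← heq]
      exact mem_insert _ _
    obtain ⟨v, w, hvw, hv, hw⟩ := hdist c hc c' hc' hcc'
    have h1 : (v, c v) = y := by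
      by_contra h
      have : (v, c v) ∈ cyc c' := by
        rw [← heq]
        exact mem_insert_of_mem _ ⟨rfl, h⟩
      exact hv this
    have h2 : (w, c w) = y := by
      by_contra h
      have : (w, c w) ∈ cyc c' := by
        rw [← heq]
        exact mem_insert_of_mem _ ⟨rfl, h⟩
      exact hw this
    rw [← h2] at h1
    exact hvw (Prod.mk.inj h1).1
  · push Not at hc
    exact ⟨y, hy, hy', hc⟩

theorem MM_exists [Finite V] (σ : Bool → Equiv.Perm V) (𝓒 : Set (V → Bool))
    (hgood : ∀ c ∈ 𝓒, Good σ c)
    (hdist : ∀ c ∈ 𝓒, ∀ c' ∈ 𝓒, c ≠ c' → ∃ v w, v ≠ w ∧ c v ≠ c' v ∧ c w ≠ c' w)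
    (hne : Nonempty V) :
    ∃ B, IsTr σ B ∧ ∀ c ∈ 𝓒, B ≠ cyc c := by
  classical
  by_cases h : ∃ c, c ∈ 𝓒
  · obtain ⟨c, hc⟩ := h
    obtain ⟨x⟩ := hne
    have he : (x, !(c x)) ∉ cyc c := by
      intro h
      have : (!(c x)) = c x := h
      simp at this
    refine ⟨insert (x, !(c x)) (cyc c \ {(x, c x)}), (hgood c hc).free he rfl, ?_⟩
    intro c' hc' heq
    have hcc' : c ≠ c' := by
      rintro rfl
      exact he (by rw [← heq]; exact mem_insert _ _)
    obtain ⟨v, w, hvw, hv, hw⟩ := hdist c hc c' hc' hcc'
    have h1 : (v, c v) = (x, c x) := by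
      by_contra h
      have : (v, c v) ∈ cyc c' := by
        rw [← heq]
        exact mem_insert_of_mem _ ⟨rfl, h⟩
      exact hv this
    have h2 : (w, c w) = (x, c x) := by
      by_contra h
      have : (w, c w) ∈ cyc c' := by
        rw [← heq]
        exact mem_insert_of_mem _ ⟨rfl, h⟩
      exact hw this
    rw [← h2] at h1
    exact hvw (Prod.mk.inj h1).1
  · push Not at h
    exact ⟨cyc (fun _ => false), isTr_cyc σ _, fun c hc => absurd hc (h c)⟩

/-- the data needed to build the matroid -/
structure Data (V : Type) where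
  σ : Bool → Equiv.Perm V
  𝓒 : Set (V → Bool)
  good : ∀ c ∈ 𝓒, Good σ c
  dist : ∀ c ∈ 𝓒, ∀ c' ∈ 𝓒, c ≠ c' → ∃ v w, v ≠ w ∧ c v ≠ c' v ∧ c w ≠ c' w

/-- The matroid: bases are the transversals not in `𝓒`. -/
def MM [Finite V] [Nonempty V] (D : Data V) : Matroid (V × Bool) :=
  Matroid.ofIsBaseOfFinite (E := Set.univ) (Set.toFinite _)
    (fun B => IsTr D.σ B ∧ ∀ c ∈ D.𝓒, B ≠ cyc c)
    (MM_exists D.σ D.𝓒 D.good D.dist inferInstance)
    (MM_exchange D.σ D.𝓒 D.good D.dist)
    (fun _ _ => Set.subset_univ _)

@[simp] theorem MM_E [Finite V] [Nonempty V] (D : Data V) : (MM D).E = Set.univ := rfl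

theorem MM_isBase [Finite V] [Nonempty V] (D : Data V) (B : Set (V × Bool)) :
    (MM D).IsBase B ↔ (IsTr D.σ B ∧ ∀ c ∈ D.𝓒, B ≠ cyc c) := Iff.rfl

instance MM_finite [Finite V] [Nonempty V] (D : Data V) : (MM D).Finite := ⟨Set.toFinite _⟩

end Pool.Agent.MP97f6bf
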