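import Mathlib
import Pool.Agent.Lib.MP_97f6bf_co.Transversal
import Pool.Agent.Lib.MP_97f6bf_co.BaseForm

set_option autoImplicit false

namespace Pool.Agent.MP97f6bf

open Set Function

variable {V : Type}

open Classical in
/-- the other end of an edge -/
noncomputable def oth (σ : Bool → Equiv.Perm V) (v : V) (e : V × Bool) : V :=
  if e.1 = v then σ e.2 e.1 else e.1

open Classical in
/-- one step along the contracted edges -/
noncomputable def step (σ : Bool → Equiv.Perm V) (φ : V → V × Bool) (X : Set (V × Bool))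
    (v : V) : V :=
  if φ v ∈ X then oth σ v (φ v) else v

/-- the vertices that lead to `u` -/
def comp (σ : Bool → Equiv.Perm V) (φ : V → V × Bool) (X : Set (V × Bool)) (u : V) : Set V :=
  {v | ∃ k, (step σ φ X)^[k] v = u}

/-- the edges meeting `W` -/
def star (σ : Bool → Equiv.Perm V) (W : Set V) : Set (V × Bool) :=
  {e | e.1 ∈ W ∨ σ e.2 e.1 ∈ W}

theorem mem_star_of_inc {σ : Bool → Equiv.Perm V} {W : Set V} {v : V} {e : V × Bool}
    (h : Inc σ v e) (hv : v ∈ W) : e ∈ star σ W := by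
  rcases h with h | h
  · left; rw [h]; exact hv
  · right; rw [h]; exact hv

theorem star_mono (σ : Bool → Equiv.Perm V) {W W' : Set V} (h : W ⊆ W') :
    star σ W ⊆ star σ W' := by
  rintro e (he | he)
  · exact Or.inl (h he)
  · exact Or.inr (h he)

theorem inc_oth {σ : Bool → Equiv.Perm V} {v : V} {e : V × Bool} (_h : Inc σ v e) :
    Inc σ (oth σ v e) e := by
  unfold oth
  split_ifs with h1
  · exact Or.inr rfl
  · exact Or.inl rfl

theorem eq_or_eq_oth {σ : Bool → Equiv.Perm V} {v w : V} {e : V × Bool} (hv : Inc σ v e)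
    (hw : Inc σ w e) : w = v ∨ w = oth σ v e := by
  unfold oth
  rcases hv with hv | hv
  · rw [if_pos hv]
    rcases hw with hw | hw
    · left; rw [← hv, ← hw]
    · right; rw [← hw]
  · by_cases h1 : e.1 = v
    · rw [if_pos h1]
      rcases hw with hw | hw
      · left; rw [← h1, ← hw]
      · right; rw [← hw]
    · rw [if_neg h1]
      rcases hw with hw | hw
      · right; exact hw.symm
      · left; rw [← hv, ← hw]

theorem step_of_notMem {σ : Bool → Equiv.Perm V} {φ : V → V × Bool} {X : Set (V × Bool)}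
    {v : V} (h : φ v ∉ X) : step σ φ X v = v := by
  unfold step; rw [if_neg h]

theorem step_of_mem {σ : Bool → Equiv.Perm V} {φ : V → V × Bool} {X : Set (V × Bool)}
    {v : V} (h : φ v ∈ X) : step σ φ X v = oth σ v (φ v) := by
  unfold step; rw [if_pos h]

theorem comp_step {σ : Bool → Equiv.Perm V} {φ : V → V × Bool} {X : Set (V × Bool)}
    {v u : V} (h : step σ φ X v ∈ comp σ φ X u) : v ∈ comp σ φ X u := by
  obtain ⟨k, hk⟩ := h
  exact ⟨k + 1, by rw [Function.iterate_succ_apply]; exact hk⟩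

theorem self_mem_comp (σ : Bool → Equiv.Perm V) (φ : V → V × Bool) (X : Set (V × Bool))
    (u : V) : u ∈ comp σ φ X u := ⟨0, rfl⟩

theorem comp_disj {σ : Bool → Equiv.Perm V} {φ : V → V × Bool} {X : Set (V × Bool)}
    {u u' : V} (hu : φ u ∉ X) (hu' : φ u' ∉ X) (hne : u ≠ u') :
    Disjoint (comp σ φ X u) (comp σ φ X u') := by
  rw [Set.disjoint_left]
  rintro v ⟨k, hk⟩ ⟨l, hl⟩
  have fix : ∀ w, φ w ∉ X → ∀ n, (step σ φ X)^[n] w = w := by
    intro w hw n
    exact Function.iterate_fixed (step_of_notMem hw) n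
  apply hne
  have h1 : (step σ φ X)^[k + l] v = u := by
    rw [add_comm, Function.iterate_add_apply, hk, fix u hu]
  have h2 : (step σ φ X)^[k + l] v = u' := by
    rw [Function.iterate_add_apply, hl, fix u' hu']
  rw [← h1, h2]

theorem comp_subset {σ : Bool → Equiv.Perm V} {φ : V → V × Bool} {X : Set (V × Bool)}
    (hφi : ∀ v, Inc σ v (φ v)) {u : V} {W₀ : Set V} (hu : u ∈ W₀)
    (h : ∀ v, φ v ∈ X → φ v ∈ star σ W₀ → v ∈ W₀) : comp σ φ X u ⊆ W₀ := by
  rintro v ⟨k, hk⟩
  induction k generalizing v with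
  | zero =>
    have : v = u := hk
    rw [this]; exact hu
  | succ k ih =>
    rw [Function.iterate_succ_apply] at hk
    have h1 := ih hk
    by_cases hv : φ v ∈ X
    · rw [step_of_mem hv] at h1
      exact h v hv (mem_star_of_inc (inc_oth (hφi v)) h1)
    · rw [step_of_notMem hv] at h1
      exact h1

/-- Every base of `N` meets the star of each component. -/
theorem base_meets_star [Finite V] {σ : Bool → Equiv.Perm V} {M N : Matroid (V × Bool)}
    {X : Set (V × Bool)} (hM : ∀ B, M.IsBase B → IsTr σ B) (hN : BaseForm M N X)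
    {φ : V → V × Bool} (hφi : ∀ v, Inc σ v (φ v))
    (hφX : X ⊆ range φ) {u : V} (hu : φ u ∉ X) {B : Set (V × Bool)} (hB : N.IsBase B) :
    ∃ e ∈ B, e ∈ star σ (comp σ φ X u) := by
  by_contra hcon
  push Not at hcon
  have hBE : B ⊆ N.E := hB.subset_ground
  obtain ⟨ψ, hψ, hψi, hψr⟩ := hM _ ((hN.iff B hBE).1 hB)
  set W := comp σ φ X u with hW
  have h1 : ∀ v ∈ W, ψ v ∈ X := by
    intro v hv
    have h2 : ψ v ∈ B ∪ X := by rw [← hψr]; exact mem_range_self _
    rcases h2 with h2 | h2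
    · exact absurd (mem_star_of_inc (hψi v) hv) (hcon _ h2)
    · exact h2
  have h2 : ∀ v : V, ∃ w : V, v ∈ W → (φ w = ψ v ∧ w ∈ W) := by
    intro v
    by_cases hv : v ∈ W
    · obtain ⟨w, hw⟩ := hφX (h1 v hv)
      refine ⟨w, fun _ => ⟨hw, ?_⟩⟩
      have hi : Inc σ v (φ w) := by rw [hw]; exact hψi v
      have hwX : φ w ∈ X := by rw [hw]; exact h1 v hv
      rcases eq_or_eq_oth (hφi w) hi with h | h
      · rw [← h]; exact hv
      · apply comp_step
        rw [step_of_mem hwX, ← h]; exact hv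
    · exact ⟨v, fun h => absurd h hv⟩
  choose g hg using h2
  have hgi : Set.InjOn g W := by
    intro a ha b hb hab
    apply hψ
    rw [← (hg a ha).1, ← (hg b hb).1, hab]
  have hsub : g '' W ⊆ W := by
    rintro _ ⟨v, hv, rfl⟩
    exact (hg v hv).2
  have heq : g '' W = W := by
    apply Set.eq_of_subset_of_ncard_le hsub
    rw [hgi.ncard_image]
  have huW : u ∈ g '' W := by rw [heq]; exact self_mem_comp _ _ _ _
  obtain ⟨v, hv, hvu⟩ := huW
  apply hu
  rw [← hvu, (hg v hv).1]
  exact h1 v hv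

/-- Counting: the stars of disjoint sets cover each edge at most twice. -/
theorem star_count [Finite V] (σ : Bool → Equiv.Perm V) (E : Set (V × Bool)) (U : Finset V)
    (W : V → Set V) (hW : ∀ u ∈ U, ∀ u' ∈ U, u ≠ u' → Disjoint (W u) (W u')) :
    ∑ u ∈ U, (E ∩ star σ (W u)).ncard ≤ 2 * E.ncard := by
  classical
  have := Fintype.ofFinite V
  have aux : ∀ g : V × Bool → V, ∑ u ∈ U, (E ∩ {e | g e ∈ W u}).ncard ≤ E.ncard := by
    intro g
    have h1 : ∀ u, (E ∩ {e | g e ∈ W u}).ncard
        = (E.toFinset.filter (fun e => g e ∈ W u)).card := by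
      intro u
      rw [← Set.ncard_coe_finset]
      congr 1
      ext e
      simp
    rw [Finset.sum_congr rfl (fun u _ => h1 u), ← Finset.card_biUnion]
    · rw [Set.ncard_eq_toFinset_card']
      apply Finset.card_le_card
      intro e he
      rw [Finset.mem_biUnion] at he
      obtain ⟨u, hu, he⟩ := he
      exact (Finset.mem_filter.1 he).1
    · intro u hu u' hu' hne
      rw [Function.onFun, Finset.disjoint_left]
      intro e he he'
      exact (Set.disjoint_left.1 (hW u hu u' hu' hne)) (Finset.mem_filter.1 he).2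
        (Finset.mem_filter.1 he').2
  have h2 : ∀ u, (E ∩ star σ (W u)).ncard ≤
      (E ∩ {e | e.1 ∈ W u}).ncard + (E ∩ {e | σ e.2 e.1 ∈ W u}).ncard := by
    intro u
    have : E ∩ star σ (W u) = (E ∩ {e | e.1 ∈ W u}) ∪ (E ∩ {e | σ e.2 e.1 ∈ W u}) := by
      rw [← Set.inter_union_distrib_left]
      rfl
    rw [this]
    exact Set.ncard_union_le _ _
  calc ∑ u ∈ U, (E ∩ star σ (W u)).ncard
      ≤ ∑ u ∈ U, ((E ∩ {e | e.1 ∈ W u}).ncard + (E ∩ {e | σ e.2 e.1 ∈ W u}).ncard) :=
        Finset.sum_le_sum (fun u _ => h2 u)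
    _ = _ := Finset.sum_add_distrib
    _ ≤ E.ncard + E.ncard := add_le_add (aux _) (aux _)
    _ = 2 * E.ncard := by ring

/-- The unmatched vertices. -/
theorem exists_U [Finite V] {φ : V → V × Bool} (hφ : Injective φ) {B X : Set (V × Bool)}
    (hr : range φ = B ∪ X) (hd : Disjoint B X) :
    ∃ U : Finset V, U.card = B.ncard ∧ ∀ u, u ∈ U ↔ φ u ∉ X := by
  classical
  have := Fintype.ofFinite V
  refine ⟨Finset.univ.filter (fun u => φ u ∉ X), ?_, by simp⟩
  have : B = φ '' ((Finset.univ.filter (fun u => φ u ∉ X) : Finset V) : Set V) := by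
    ext e
    constructor
    · intro he
      have : e ∈ range φ := by rw [hr]; exact Or.inl he
      obtain ⟨v, rfl⟩ := this
      exact ⟨v, by simpa using (fun h => Set.disjoint_left.1 hd he h), rfl⟩
    · rintro ⟨v, hv, rfl⟩
      have h1 : φ v ∈ B ∪ X := by rw [← hr]; exact mem_range_self _
      have h2 : φ v ∉ X := by simpa using hv
      exact h1.resolve_right h2
  rw [this, Set.ncard_image_of_injective _ hφ, Set.ncard_coe_finset]

theorem sum_lower {ι : Type} (U : Finset ι) (a : ι → ℕ) (n : ℕ) (h : ∀ u ∈ U, n ≤ a u) :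
    U.card * n ≤ ∑ u ∈ U, a u := by
  have := Finset.card_nsmul_le_sum U a n h
  simpa using this

/-- No large uniform minor. -/
theorem no_uniform [Finite V] {σ : Bool → Equiv.Perm V} {M N : Matroid (V × Bool)} [M.Finite]
    (hM : ∀ B, M.IsBase B → IsTr σ B) (h : N.IsMinor M) (hc : N.E.ncard = 2 * 4)
    (hI : ∀ I ⊆ N.E, N.Indep I ↔ I.ncard ≤ 4) : False := by
  classical
  obtain ⟨X, hX⟩ := exists_baseForm h
  have hfin : ∀ S : Set (V × Bool), S.Finite := fun S => Set.toFinite S
  -- every 4-subset is a base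
  have hb4 : ∀ B, B ⊆ N.E → B.ncard = 4 → N.IsBase B := by
    intro B hB h4
    have hi : N.Indep B := (hI B hB).2 h4.le
    obtain ⟨B', hB', hBB'⟩ := hi.exists_isBase_superset
    have h5 : B'.ncard ≤ 4 := (hI B' hB'.subset_ground).1 hB'.indep
    have : B = B' := Set.eq_of_subset_of_ncard_le hBB' (by omega) (hfin _)
    rw [this]; exact hB'
  obtain ⟨B₀, hB₀E, hB₀⟩ := Set.exists_subset_card_eq (s := N.E) (n := 4) (by omega)
  have hB₀b := hb4 B₀ hB₀E hB₀
  obtain ⟨φ, hφ, hφi, hφr⟩ := hM _ ((hX.iff B₀ hB₀E).1 hB₀b)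
  obtain ⟨U, hU, hUm⟩ := exists_U hφ hφr (hX.disj.symm.mono_left hB₀E)
  have hcount := star_count σ N.E U (comp σ φ X) (fun u hu u' hu' hne =>
    comp_disj ((hUm u).1 hu) ((hUm u').1 hu') hne)
  have hlow : ∀ u ∈ U, 5 ≤ (N.E ∩ star σ (comp σ φ X u)).ncard := by
    intro u hu
    by_contra hlt
    push Not at hlt
    have h6 : 4 ≤ (N.E \ star σ (comp σ φ X u)).ncard := by
      have := Set.ncard_inter_add_ncard_sdiff_eq_ncard N.E (star σ (comp σ φ X u)) (hfin _)
      omega
    obtain ⟨B, hBE, hB⟩ := Set.exists_subset_card_eq (s := N.E \ star σ (comp σ φ X u))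
      (n := 4) h6
    have hBb := hb4 B (hBE.trans sdiff_subset) hB
    obtain ⟨e, he, he2⟩ := base_meets_star hM hX hφi (by rw [hφr]; exact subset_union_right)
      ((hUm u).1 hu) hBb
    exact (hBE he).2 he2
  have := sum_lower U _ 5 hlow
  omega

end Pool.Agent.MP97f6bf
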