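import Mathlib
import Pool.Agent.Lib.MP_97f6bf_co.Stars

set_option autoImplicit false

namespace Pool.Agent.MP97f6bf

open Set Function

variable {V : Type}

open Classical in
/-- Hall's theorem in the form needed. -/
theorem hall_violation [Finite V] {σ : Bool → Equiv.Perm V} {S : Set (V × Bool)}
    (hS : S.ncard = Nat.card V) (hn : ¬ IsTr σ S) :
    ∃ W : Finset V, (star σ (W : Set V) ∩ S).ncard < W.card := by
  have := Fintype.ofFinite V
  by_contra hcon
  push Not at hcon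
  apply hn
  set t : V → Finset (V × Bool) := fun v => Finset.univ.filter (fun e => e ∈ S ∧ Inc σ v e) with ht
  have hbi : ∀ W : Finset V, ((W.biUnion t : Finset (V × Bool)) : Set (V × Bool))
      = star σ (W : Set V) ∩ S := by
    intro W
    ext e
    simp only [ht, Finset.coe_biUnion, Set.mem_iUnion, Finset.coe_filter, Finset.mem_univ,
      true_and, Set.mem_inter_iff, star, exists_prop, Finset.mem_coe]
    constructor
    · rintro ⟨v, hv, hS, hi⟩
      refine ⟨?_, hS⟩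
      rcases hi with hi | hi
      · left; rw [hi]; exact hv
      · right; rw [hi]; exact hv
    · rintro ⟨h1 | h1, h2⟩
      · exact ⟨e.1, h1, h2, Or.inl rfl⟩
      · exact ⟨σ e.2 e.1, h1, h2, Or.inr rfl⟩
  have hall : ∀ W : Finset V, W.card ≤ (W.biUnion t).card := by
    intro W
    rw [← Set.ncard_coe_finset (W.biUnion t), hbi W]
    exact hcon W
  obtain ⟨f, hf, hft⟩ := (Finset.all_card_le_biUnion_card_iff_exists_injective t).1 hall
  have h1 : ∀ v, f v ∈ S ∧ Inc σ v (f v) := by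
    intro v
    have := hft v
    rw [ht, Finset.mem_filter] at this
    exact this.2
  refine ⟨f, hf, fun v => (h1 v).2, ?_⟩
  apply Set.eq_of_subset_of_ncard_le
  · rintro _ ⟨v, rfl⟩
    exact (h1 v).1
  · rw [hS, ← Set.image_univ, Set.ncard_image_of_injective _ hf, Set.ncard_univ]
  · exact Set.toFinite _

/-- For an injective matching, the star of `W` meets the range in at least `|W|` elements. -/
theorem card_le_star [Finite V] {σ : Bool → Equiv.Perm V} {S : Set (V × Bool)}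
    (h : IsTr σ S) (W : Finset V) : W.card ≤ (star σ (W : Set V) ∩ S).ncard := by
  obtain ⟨φ, hφ, hφi, rfl⟩ := h
  rw [← Set.ncard_coe_finset W, ← Set.ncard_image_of_injective _ hφ]
  apply Set.ncard_le_ncard _ (Set.toFinite _)
  rintro _ ⟨v, hv, rfl⟩
  exact ⟨mem_star_of_inc (hφi v) hv, mem_range_self _⟩

/-- The key lemma: a circuit-hyperplane in a rank-5, cogirth-4 minor on ten elements comes from
one of the relaxed cycles. -/
theorem key_lemma [Finite V] [Nonempty V] (D : Data V) {N : Matroid (V × Bool)}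
    {X T : Set (V × Bool)}
    (hX : BaseForm (MM D) N X) (hcard : N.E.ncard = 10) (hT : T ⊆ N.E) (hT5 : T.ncard = 5)
    (hTn : ¬ N.IsBase T)
    (hTf : ∀ t ∈ T, ∀ y ∈ N.E \ T, N.IsBase (insert y (T \ {t})))
    (hco : ∀ S, S ⊆ N.E → (∀ B, N.IsBase B → ∃ e ∈ B, e ∈ S) → 4 ≤ S.ncard) :
    ∃ c ∈ D.𝓒, T ∪ X = cyc c := by
  classical
  by_contra hcon
  push Not at hcon
  have hfin : ∀ S : Set (V × Bool), S.Finite := fun S => Set.toFinite S
  have hM : ∀ B, (MM D).IsBase B → IsTr D.σ B := fun B hB => ((MM_isBase D B).1 hB).1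
  -- T and its complement are nonempty
  obtain ⟨t₀, ht₀⟩ : T.Nonempty := by
    rw [← Set.ncard_pos (hfin _)]; omega
  have hTc : (N.E \ T).ncard = 5 := by
    rw [Set.ncard_sdiff hT (hfin _)]; omega
  obtain ⟨y₀, hy₀⟩ : (N.E \ T).Nonempty := by
    rw [← Set.ncard_pos (hfin _)]; omega
  have hdisjT : Disjoint T X := hX.disj.symm.mono_left hT
  -- bases
  have hsubB : ∀ t y, y ∈ N.E \ T → insert y (T \ {t}) ⊆ N.E := by
    intro t y hy
    rw [Set.insert_subset_iff]
    exact ⟨hy.1, Set.sdiff_subset.trans hT⟩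
  have hTrB : ∀ t ∈ T, ∀ y ∈ N.E \ T, IsTr D.σ (insert y (T \ {t}) ∪ X) := by
    intro t ht y hy
    exact hM _ ((hX.iff _ (hsubB t y hy)).1 (hTf t ht y hy))
  have hBcard : (insert y₀ (T \ {t₀})).ncard = 5 := by
    rw [Set.ncard_insert_of_notMem (fun h => hy₀.2 h.1) (hfin _),
      Set.ncard_sdiff_singleton_of_mem ht₀, hT5]
  have hTXcard : (T ∪ X).ncard = Nat.card V := by
    have h1 := (hTrB t₀ ht₀ y₀ hy₀).ncard_eq
    rw [Set.ncard_union_eq (hX.disj.symm.mono_left (hsubB t₀ y₀ hy₀)) (hfin _) (hfin _), hBcard] at h1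
    rw [Set.ncard_union_eq hdisjT (hfin _) (hfin _), hT5]
    exact h1
  have hnTr : ¬ IsTr D.σ (T ∪ X) := by
    intro h
    apply hTn
    rw [hX.iff T hT, MM_isBase]
    exact ⟨h, hcon⟩
  obtain ⟨W, hW⟩ := hall_violation hTXcard hnTr
  set SW := star D.σ (W : Set V) with hSW
  -- T is disjoint from the star of W
  have hstep1 : ∀ t ∈ T, t ∉ SW := by
    intro t ht htW
    have h1 := card_le_star (hTrB t ht y₀ hy₀) W
    rw [← hSW] at h1
    have h2 : SW ∩ (insert y₀ (T \ {t}) ∪ X) ⊆ insert y₀ ((SW ∩ (T ∪ X)) \ {t}) := by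
      rintro e ⟨he1, (he2 | he2) | he2⟩
      · exact Or.inl he2
      · exact Or.inr ⟨⟨he1, Or.inl he2.1⟩, he2.2⟩
      · refine Or.inr ⟨⟨he1, Or.inr he2⟩, ?_⟩
        rintro rfl
        exact Set.disjoint_left.1 hdisjT ht he2
    have h3 := Set.ncard_le_ncard h2 (hfin _)
    have h4 := Set.ncard_insert_le y₀ ((SW ∩ (T ∪ X)) \ {t})
    have h5 : ((SW ∩ (T ∪ X)) \ {t}).ncard + 1 = (SW ∩ (T ∪ X)).ncard :=
      Set.ncard_sdiff_singleton_add_one ⟨htW, Or.inl ht⟩ (hfin _)
    omega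
  -- the choice of the matching
  obtain ⟨φ, hφ, hφi, hφr⟩ := hTrB t₀ ht₀ y₀ hy₀
  obtain ⟨U, hU, hUm⟩ := exists_U hφ hφr (hX.disj.symm.mono_left (hsubB t₀ y₀ hy₀))
  rw [hBcard] at hU
  have hXr : X ⊆ range φ := by rw [hφr]; exact subset_union_right
  -- φ '' W = insert y₀ (SW ∩ X)
  have himg : φ '' (W : Set V) ⊆ insert y₀ (SW ∩ X) := by
    rintro _ ⟨v, hv, rfl⟩
    have h1 : φ v ∈ SW := mem_star_of_inc (hφi v) hv
    have h2 : φ v ∈ insert y₀ (T \ {t₀}) ∪ X := by rw [← hφr]; exact mem_range_self _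
    rcases h2 with (h2 | h2) | h2
    · exact Or.inl h2
    · exact absurd h1 (hstep1 _ h2.1)
    · exact Or.inr ⟨h1, h2⟩
  have himg' : φ '' (W : Set V) = insert y₀ (SW ∩ X) := by
    apply Set.eq_of_subset_of_ncard_le himg _ (hfin _)
    rw [Set.ncard_image_of_injective _ hφ, Set.ncard_coe_finset]
    have h4 := Set.ncard_insert_le y₀ (SW ∩ X)
    have h5 : (SW ∩ X).ncard ≤ (SW ∩ (T ∪ X)).ncard :=
      Set.ncard_le_ncard (fun e he => ⟨he.1, Or.inr he.2⟩) (hfin _)
    omega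
  obtain ⟨z, hzW, hz⟩ : ∃ z ∈ (W : Set V), φ z = y₀ := by
    have : y₀ ∈ φ '' (W : Set V) := by rw [himg']; exact mem_insert _ _
    exact this
  have hy₀X : y₀ ∉ X := fun h => Set.disjoint_left.1 hX.disj h hy₀.1
  have hzX : φ z ∉ X := by rw [hz]; exact hy₀X
  have hcompz : comp D.σ φ X z ⊆ (W : Set V) := by
    apply comp_subset hφi hzW
    intro v hvX hvS
    have : φ v ∈ φ '' (W : Set V) := by
      rw [himg']; exact Or.inr ⟨hvS, hvX⟩
    obtain ⟨w, hw, hwv⟩ := this
    rw [← hφ hwv]; exact hw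
  -- the star of comp z inside N.E is exactly N.E \ T
  have hstarz : N.E ∩ star D.σ (comp D.σ φ X z) = N.E \ T := by
    apply Set.Subset.antisymm
    · rintro e ⟨he1, he2⟩
      refine ⟨he1, fun heT => hstep1 e heT (star_mono D.σ hcompz he2)⟩
    · intro y hy
      refine ⟨hy.1, ?_⟩
      obtain ⟨e, he, he2⟩ := base_meets_star hM hX hφi hXr hzX (hTf t₀ ht₀ y hy)
      rcases he with he | he
      · rw [← he]; exact he2
      · exact absurd (star_mono D.σ hcompz he2) (hstep1 e he.1)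
  -- counting
  have hcount := star_count D.σ N.E U (comp D.σ φ X) (fun u hu u' hu' hne =>
    comp_disj ((hUm u).1 hu) ((hUm u').1 hu') hne)
  have hlow : ∀ u ∈ U, 4 ≤ (N.E ∩ star D.σ (comp D.σ φ X u)).ncard := by
    intro u hu
    apply hco _ Set.inter_subset_left
    intro B hB
    obtain ⟨e, he, he2⟩ := base_meets_star hM hX hφi hXr ((hUm u).1 hu) hB
    exact ⟨e, he, hB.subset_ground he, he2⟩
  have hzU : z ∈ U := (hUm z).2 hzX
  have hsum := Finset.add_sum_erase U (fun u => (N.E ∩ star D.σ (comp D.σ φ X u)).ncard) hzU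
  have hlow2 := sum_lower (U.erase z) (fun u => (N.E ∩ star D.σ (comp D.σ φ X u)).ncard) 4
    (fun u hu => hlow u (Finset.mem_of_mem_erase hu))
  rw [Finset.card_erase_of_mem hzU, hU] at hlow2
  simp only [hstarz, hTc] at hsum
  omega

end Pool.Agent.MP97f6bf
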