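import Mathlib
import Pool.Agent.Lib.MP_97f6bf_co.Hyper

set_option autoImplicit false

namespace Pool.Agent.MP97f6bf

open Set Function

/-- near a free cycle all exchanges are bases -/
theorem free_base {V : Type} [Finite V] [Nonempty V] (D : Data V) {c : V → Bool} (hc : c ∈ D.𝓒)
    {e f : V × Bool} (he : e ∉ cyc c) (hf : f ∈ cyc c) :
    (MM D).IsBase (insert e (cyc c \ {f})) := by
  rw [MM_isBase]
  refine ⟨(D.good c hc).free he hf, ?_⟩
  intro c' hc' heq
  have hcc' : c ≠ c' := by
    rintro rfl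
    exact he (by rw [← heq]; exact mem_insert _ _)
  obtain ⟨v, w, hvw, hv, hw⟩ := D.dist c hc c' hc' hcc'
  have h1 : (v, c v) = f := by
    by_contra h
    have : (v, c v) ∈ cyc c' := by
      rw [← heq]
      exact mem_insert_of_mem _ ⟨rfl, h⟩
    exact hv this
  have h2 : (w, c w) = f := by
    by_contra h
    have : (w, c w) ∈ cyc c' := by
      rw [← heq]
      exact mem_insert_of_mem _ ⟨rfl, h⟩
    exact hw this
  rw [← h2] at h1
  exact hvw (Prod.mk.inj h1).1

theorem cyc_not_base {V : Type} [Finite V] [Nonempty V] (D : Data V) {c : V → Bool}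
    (hc : c ∈ D.𝓒) : ¬ (MM D).IsBase (cyc c) := by
  rw [MM_isBase]
  rintro ⟨-, h⟩
  exact h c hc rfl

theorem cyc_ncard {V : Type} [Finite V] (c : V → Bool) : (cyc c).ncard = Nat.card V := by
  rw [cyc_eq_range, ← Set.image_univ, Set.ncard_image_of_injective, Set.ncard_univ]
  intro a b h
  exact (Prod.mk.inj h).1

/-- the positions that are switched, for the two kinds of cycles -/
def sw (b : Bool) : Finset (Fin 5) := if b then {0, 1, 2} else {0, 1}

/-- the choice functions on five vertices -/
def c5 (b : Bool) (s : Finset (Fin 5)) : Fin 5 → Bool := fun i => if i ∈ s then !b else b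

/-- the cyclic shift on five vertices -/
def σ5 : Bool → Equiv.Perm (Fin 5) := fun _ => Equiv.addRight 1

theorem good5 (c : Fin 5 → Bool) : Good σ5 c := by
  have h : ∀ x y : Fin 5, ∃ k : Fin 5, (fun v : Fin 5 => v + 1)^[(k : ℕ)] x = y := by decide
  intro x y
  obtain ⟨k, hk⟩ := h x y
  exact ⟨k, hk⟩

theorem c5_empty_ne (b : Bool) (s : Finset (Fin 5)) (i : Fin 5) (hi : i ∈ s) :
    c5 b ∅ i ≠ c5 b s i := by
  simp [c5, hi]

theorem zero_mem_sw (b : Bool) : (0 : Fin 5) ∈ sw b := by cases b <;> decide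
theorem one_mem_sw (b : Bool) : (1 : Fin 5) ∈ sw b := by cases b <;> decide

/-- the data of the two small matroids -/
def D5 (b : Bool) : Data (Fin 5) where
  σ := σ5
  𝓒 := {c5 b ∅, c5 b (sw b)}
  good := fun c _ => good5 c
  dist := by
    rintro c (rfl | rfl) c' (rfl | rfl) hne
    · exact absurd rfl hne
    · exact ⟨0, 1, by decide, c5_empty_ne b _ _ (zero_mem_sw b), c5_empty_ne b _ _ (one_mem_sw b)⟩
    · exact ⟨0, 1, by decide, (c5_empty_ne b _ _ (zero_mem_sw b)).symm,
        (c5_empty_ne b _ _ (one_mem_sw b)).symm⟩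
    · exact absurd rfl hne

theorem five_hall : ∀ W : Finset (Fin 5), W.Nonempty → W.card + 3 ≤
    ((Finset.univ : Finset (Fin 5 × Bool)).filter (fun e => e.1 ∈ W ∨ e.1 + 1 ∈ W)).card := by
  decide

open Classical in
/-- every set of at most three elements is avoided by a base -/
theorem cogirth5 (b : Bool) (S : Set (Fin 5 × Bool))
    (h : ∀ B, (MM (D5 b)).IsBase B → ∃ e ∈ B, e ∈ S) : 4 ≤ S.ncard := by
  by_contra hlt
  push Not at hlt
  have hfin : ∀ S : Set (Fin 5 × Bool), S.Finite := fun S => Set.toFinite S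
  -- a transversal avoiding S
  have h1 : ∃ B, IsTr σ5 B ∧ Disjoint B S := by
    set t : Fin 5 → Finset (Fin 5 × Bool) := fun v =>
      Finset.univ.filter (fun e => e ∉ S ∧ Inc σ5 v e) with ht
    have hall : ∀ W : Finset (Fin 5), W.card ≤ (W.biUnion t).card := by
      intro W
      rcases W.eq_empty_or_nonempty with rfl | hW
      · simp
      · have h2 := five_hall W hW
        have h3 : ((Finset.univ : Finset (Fin 5 × Bool)).filter
            (fun e => e.1 ∈ W ∨ e.1 + 1 ∈ W)) ⊆ (W.biUnion t) ∪ S.toFinset := by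
          intro e he
          rw [Finset.mem_union]
          by_cases heS : e ∈ S
          · right; simpa using heS
          · left
            rw [Finset.mem_biUnion]
            rcases (Finset.mem_filter.1 he).2 with h4 | h4
            · exact ⟨e.1, h4, Finset.mem_filter.2 ⟨Finset.mem_univ _, heS, Or.inl rfl⟩⟩
            · exact ⟨e.1 + 1, h4, Finset.mem_filter.2 ⟨Finset.mem_univ _, heS, Or.inr rfl⟩⟩
        have h5 := Finset.card_le_card h3
        have h6 := Finset.card_union_le (W.biUnion t) S.toFinset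
        have h7 : S.toFinset.card = S.ncard := by
          rw [Set.ncard_eq_toFinset_card']
        omega
    obtain ⟨f, hf, hft⟩ := (Finset.all_card_le_biUnion_card_iff_exists_injective t).1 hall
    have h8 : ∀ v, f v ∉ S ∧ Inc σ5 v (f v) := by
      intro v
      have := hft v
      rw [ht, Finset.mem_filter] at this
      exact this.2
    refine ⟨range f, ⟨f, hf, fun v => (h8 v).2, rfl⟩, ?_⟩
    rw [Set.disjoint_left]
    rintro _ ⟨v, rfl⟩
    exact (h8 v).1
  obtain ⟨B, hB, hBS⟩ := h1
  by_cases hc : ∀ c ∈ (D5 b).𝓒, B ≠ cyc c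
  · obtain ⟨e, he, heS⟩ := h B ((MM_isBase _ _).2 ⟨hB, hc⟩)
    exact Set.disjoint_left.1 hBS he heS
  · push Not at hc
    obtain ⟨c, hc, rfl⟩ := hc
    have h9 : (cyc c).ncard = 5 := by rw [cyc_ncard]; simp
    have h10 : (cyc c)ᶜ.ncard = 5 := by
      have := Set.ncard_add_ncard_compl (cyc c)
      have h11 : Nat.card (Fin 5 × Bool) = 10 := by simp
      omega
    obtain ⟨y, hy, hyS⟩ : ∃ y ∈ (cyc c)ᶜ, y ∉ S := by
      by_contra hcon
      push Not at hcon
      have := Set.ncard_le_ncard (show (cyc c)ᶜ ⊆ S from hcon) (hfin _)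
      omega
    have hf : ((0 : Fin 5), c 0) ∈ cyc c := rfl
    obtain ⟨e, he, heS⟩ := h _ (free_base (D5 b) hc hy hf)
    rcases he with he | he
    · rw [he] at heS; exact hyS heS
    · exact Set.disjoint_left.1 hBS he.1 heS

end Pool.Agent.MP97f6bf
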