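import Mathlib
import Pool.Agent.Lib.MP_97f6bf_co.Five

set_option autoImplicit false

namespace Pool.Agent.MP97f6bf

open Set Function

/-- Two Hamiltonian cycles sharing a doubled path `ι 0, …, ι 4, v5`. -/
structure Big (V : Type) where
  σ : Bool → Equiv.Perm V
  ι : Fin 5 → V
  inj : Injective ι
  step : ∀ (b : Bool) (i : Fin 5), i ≠ 4 → σ b (ι i) = ι (i + 1)
  v5 : V
  last : ∀ b, σ b (ι 4) = v5
  v5_notMem : v5 ∉ range ι
  v6 : V
  v6_notMem : v6 ∉ range ι
  v6_ne : v6 ≠ v5
  orb : ∀ b x y, ∃ k : ℕ, (σ b)^[k] x = y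

namespace Big

variable {V : Type} (G : Big V)

open Classical in
/-- the choice functions on the big vertex set -/
noncomputable def cV (b : Bool) (s : Finset (Fin 5)) : V → Bool :=
  fun v => if ∃ i ∈ s, G.ι i = v then !b else b

theorem cV_ι (b : Bool) (s : Finset (Fin 5)) (i : Fin 5) : G.cV b s (G.ι i) = c5 b s i := by
  unfold cV c5
  have : (∃ k ∈ s, G.ι k = G.ι i) ↔ i ∈ s := by
    constructor
    · rintro ⟨k, hk, h⟩
      rw [← G.inj h]; exact hk
    · intro h
      exact ⟨i, h, rfl⟩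
  simp only [this]

theorem cV_out (b : Bool) (s : Finset (Fin 5)) {v : V} (hv : v ∉ range G.ι) :
    G.cV b s v = b := by
  unfold cV
  rw [if_neg]
  rintro ⟨i, -, hi⟩
  exact hv ⟨i, hi⟩

theorem σ_eq (b b' : Bool) (i : Fin 5) : G.σ b (G.ι i) = G.σ b' (G.ι i) := by
  by_cases hi : i = 4
  · rw [hi, G.last, G.last]
  · rw [G.step b i hi, G.step b' i hi]

theorem good (b : Bool) (s : Finset (Fin 5)) : Good G.σ (G.cV b s) := by
  have : (fun v => G.σ (G.cV b s v) v) = G.σ b := by
    funext v
    by_cases hv : v ∈ range G.ι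
    · obtain ⟨i, rfl⟩ := hv
      exact G.σ_eq _ _ i
    · rw [G.cV_out b s hv]
  intro x y
  rw [this]
  exact G.orb b x y

/-- the family of cycles -/
def fam : Set (V → Bool) := {c | ∃ b s, (s = ∅ ∨ s = sw b) ∧ c = G.cV b s}

theorem cV_empty_ne (b : Bool) {i : Fin 5} (hi : i ∈ sw b) :
    G.cV b ∅ (G.ι i) ≠ G.cV b (sw b) (G.ι i) := by
  rw [G.cV_ι, G.cV_ι]
  exact c5_empty_ne b _ _ hi

/-- the data of the big matroid -/
def data : Data V where
  σ := G.σ
  𝓒 := G.fam
  good := by
    rintro c ⟨b, s, -, rfl⟩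
    exact G.good b s
  dist := by
    rintro c ⟨b, s, hs, rfl⟩ c' ⟨b', s', hs', rfl⟩ hne
    by_cases hb : b = b'
    · subst hb
      have h01 : G.ι 0 ≠ G.ι 1 := fun h => absurd (G.inj h) (by decide)
      rcases hs with rfl | rfl <;> rcases hs' with rfl | rfl
      · exact absurd rfl hne
      · exact ⟨G.ι 0, G.ι 1, h01, G.cV_empty_ne b (zero_mem_sw b), G.cV_empty_ne b (one_mem_sw b)⟩
      · exact ⟨G.ι 0, G.ι 1, h01, (G.cV_empty_ne b (zero_mem_sw b)).symm,
          (G.cV_empty_ne b (one_mem_sw b)).symm⟩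
      · exact absurd rfl hne
    · refine ⟨G.v6, G.v5, G.v6_ne, ?_, ?_⟩
      · rw [G.cV_out b s G.v6_notMem, G.cV_out b' s' G.v6_notMem]; exact hb
      · rw [G.cV_out b s G.v5_notMem, G.cV_out b' s' G.v5_notMem]; exact hb

/-- the embedding of the edges of the doubled path -/
def j : Fin 5 × Bool → V × Bool := fun e => (G.ι e.1, e.2)

theorem j_inj : Injective G.j := by
  rintro ⟨a, b⟩ ⟨c, d⟩ h
  simp only [j, Prod.mk.injEq] at h
  rw [G.inj h.1, h.2]

/-- the contracted edges -/
def X (b : Bool) : Set (V × Bool) := {e | e.1 ∉ range G.ι ∧ e.2 = b}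

theorem disj_jX (b : Bool) (Z : Set (Fin 5 × Bool)) : Disjoint (G.j '' Z) (G.X b) := by
  rw [Set.disjoint_left]
  rintro _ ⟨z, hz, rfl⟩ ⟨h, -⟩
  exact h ⟨z.1, rfl⟩

theorem ncard_range [Finite V] : (range G.ι).ncard = 5 := by
  rw [← Set.image_univ, Set.ncard_image_of_injective _ G.inj, Set.ncard_univ]; simp

theorem ncard_compl [Finite V] : (range G.ι)ᶜ.ncard + 5 = Nat.card V := by
  have := Set.ncard_add_ncard_compl (range G.ι)
  rw [G.ncard_range] at this
  omega

theorem X_eq (b : Bool) : G.X b = (fun v => (v, b)) '' (range G.ι)ᶜ := by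
  ext ⟨v, c⟩
  constructor
  · rintro ⟨h1, h2⟩
    have h2' : c = b := h2
    exact ⟨v, h1, by rw [h2']⟩
  · rintro ⟨w, hw, h⟩
    simp only [Prod.mk.injEq] at h
    obtain ⟨rfl, rfl⟩ := h
    exact ⟨hw, rfl⟩

theorem ncard_X [Finite V] (b : Bool) : (G.X b).ncard + 5 = Nat.card V := by
  rw [G.X_eq, Set.ncard_image_of_injective, G.ncard_compl]
  intro x y h
  exact (Prod.mk.inj h).1

theorem ncard_jX [Finite V] (b : Bool) (Z : Set (Fin 5 × Bool)) :
    (G.j '' Z ∪ G.X b).ncard + 5 = Nat.card V + Z.ncard := by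
  rw [Set.ncard_union_eq (G.disj_jX b Z) (Set.toFinite _) (Set.toFinite _),
    Set.ncard_image_of_injective _ G.j_inj]
  have := G.ncard_X b
  omega

open Classical in
theorem isTr_of_five [Finite V] (b : Bool) (Z : Set (Fin 5 × Bool)) (h : IsTr σ5 Z) :
    IsTr G.σ (G.j '' Z ∪ G.X b) := by
  have hZ5 : Z.ncard = 5 := by rw [h.ncard_eq]; simp
  obtain ⟨φ, hφ, hφi, hφr⟩ := h
  have hφZ : ∀ i, φ i ∈ Z := fun i => by rw [← hφr]; exact mem_range_self _
  -- incidence away from vertex zero
  have hinc : ∀ i : Fin 5, (φ i).1 = i ∨ (φ i).1 + 1 = i := by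
    intro i
    exact hφi i
  -- it suffices to find an injective matching with values in the set
  suffices hs : ∃ ψ : V → V × Bool, Injective ψ ∧ (∀ v, Inc G.σ v (ψ v)) ∧
      ∀ v, ψ v ∈ G.j '' Z ∪ G.X b by
    obtain ⟨ψ, h1, h2, h3⟩ := hs
    refine ⟨ψ, h1, h2, ?_⟩
    apply Set.eq_of_subset_of_ncard_le
    · rintro _ ⟨v, rfl⟩; exact h3 v
    · rw [← Set.image_univ, Set.ncard_image_of_injective _ h1, Set.ncard_univ]
      have := G.ncard_jX b Z
      omega
    · exact Set.toFinite _
  have hjZ : ∀ i, G.j (φ i) ∈ G.j '' Z := fun i => ⟨φ i, hφZ i, rfl⟩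
  have hjr : ∀ i, (G.j (φ i)).1 ∈ range G.ι := fun i => ⟨(φ i).1, rfl⟩
  rcases hinc 0 with h0 | h0
  · -- forward matching
    refine ⟨fun v => if hv : v ∈ range G.ι then G.j (φ hv.choose) else (v, b), ?_, ?_, ?_⟩
    · intro x y hxy
      by_cases hx : x ∈ range G.ι
      · by_cases hy : y ∈ range G.ι
        · simp only [dif_pos hx, dif_pos hy] at hxy
          rw [← hx.choose_spec, ← hy.choose_spec, hφ (G.j_inj hxy)]
        · simp only [dif_pos hx, dif_neg hy] at hxy
          have := hjr hx.choose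
          rw [hxy] at this
          exact absurd this hy
      · by_cases hy : y ∈ range G.ι
        · simp only [dif_neg hx, dif_pos hy] at hxy
          have := hjr hy.choose
          rw [← hxy] at this
          exact absurd this hx
        · simp only [dif_neg hx, dif_neg hy] at hxy
          exact (Prod.mk.inj hxy).1
    · intro v
      by_cases hv : v ∈ range G.ι
      · simp only [dif_pos hv]
        have hvs := hv.choose_spec
        set i := hv.choose with hi
        rcases hinc i with h | h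
        · left
          show G.ι (φ i).1 = v
          rw [h, hvs]
        · right
          show G.σ (φ i).2 (G.ι (φ i).1) = v
          have h4 : (φ i).1 ≠ 4 := by
            intro h4
            rw [h4] at h
            have h5 : i = 0 := by rw [← h]; decide
            rw [h5, h0] at h4
            exact absurd h4 (by decide)
          rw [G.step _ _ h4, h, hvs]
      · simp only [dif_neg hv]
        exact Or.inl rfl
    · intro v
      by_cases hv : v ∈ range G.ι
      · simp only [dif_pos hv]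
        exact Or.inl (hjZ _)
      · simp only [dif_neg hv]
        exact Or.inr ⟨hv, rfl⟩
  · -- backward matching
    have h04 : (φ 0).1 = 4 := by
      have : ∀ k : Fin 5, k + 1 = 0 → k = 4 := by decide
      exact this _ h0
    have hpre : ∀ v, v ≠ G.v5 → (¬ ∃ i, i ≠ 0 ∧ G.ι i = v) → (G.σ b).symm v ∉ range G.ι := by
      rintro v h1 h2 ⟨i, hi⟩
      have hv : v = G.σ b (G.ι i) := by rw [hi]; simp
      by_cases hi4 : i = 4
      · rw [hi4, G.last] at hv; exact h1 hv
      · rw [G.step _ _ hi4] at hv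
        refine h2 ⟨i + 1, ?_, hv.symm⟩
        have : ∀ k : Fin 5, k ≠ 4 → k + 1 ≠ 0 := by decide
        exact this i hi4
    have hv5 : ¬ ∃ i, i ≠ 0 ∧ G.ι i = G.v5 := by
      rintro ⟨i, -, hi⟩
      exact G.v5_notMem ⟨i, hi⟩
    refine ⟨fun v => if hv : ∃ i, i ≠ 0 ∧ G.ι i = v then G.j (φ hv.choose) else
      if v = G.v5 then G.j (φ 0) else ((G.σ b).symm v, b), ?_, ?_, ?_⟩
    · intro x y hxy
      by_cases hx : ∃ i, i ≠ 0 ∧ G.ι i = x
      · by_cases hy : ∃ i, i ≠ 0 ∧ G.ι i = y
        · simp only [dif_pos hx, dif_pos hy] at hxy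
          rw [← hx.choose_spec.2, ← hy.choose_spec.2, hφ (G.j_inj hxy)]
        · simp only [dif_pos hx, dif_neg hy] at hxy
          by_cases hy5 : y = G.v5
          · rw [if_pos hy5] at hxy
            exact absurd (hφ (G.j_inj hxy)) hx.choose_spec.1
          · rw [if_neg hy5] at hxy
            have := hjr hx.choose
            rw [hxy] at this
            exact absurd this (hpre y hy5 hy)
      · by_cases hy : ∃ i, i ≠ 0 ∧ G.ι i = y
        · simp only [dif_neg hx, dif_pos hy] at hxy
          by_cases hx5 : x = G.v5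
          · rw [if_pos hx5] at hxy
            exact absurd (hφ (G.j_inj hxy)).symm hy.choose_spec.1
          · rw [if_neg hx5] at hxy
            have := hjr hy.choose
            rw [← hxy] at this
            exact absurd this (hpre x hx5 hx)
        · simp only [dif_neg hx, dif_neg hy] at hxy
          by_cases hx5 : x = G.v5
          · by_cases hy5 : y = G.v5
            · rw [hx5, hy5]
            · rw [if_pos hx5, if_neg hy5] at hxy
              have := hjr 0
              rw [hxy] at this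
              exact absurd this (hpre y hy5 hy)
          · by_cases hy5 : y = G.v5
            · rw [if_neg hx5, if_pos hy5] at hxy
              have := hjr 0
              rw [← hxy] at this
              exact absurd this (hpre x hx5 hx)
            · rw [if_neg hx5, if_neg hy5] at hxy
              exact (G.σ b).symm.injective (Prod.mk.inj hxy).1
    · intro v
      by_cases hv : ∃ i, i ≠ 0 ∧ G.ι i = v
      · simp only [dif_pos hv]
        obtain ⟨hi0, hvs⟩ := hv.choose_spec
        set i := hv.choose with hi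
        rcases hinc i with h | h
        · left
          show G.ι (φ i).1 = v
          rw [h, hvs]
        · right
          show G.σ (φ i).2 (G.ι (φ i).1) = v
          have h4 : (φ i).1 ≠ 4 := by
            intro h4
            rw [h4] at h
            apply hi0
            rw [← h]; decide
          rw [G.step _ _ h4, h, hvs]
      · simp only [dif_neg hv]
        by_cases h5 : v = G.v5
        · rw [if_pos h5]
          right
          show G.σ (φ 0).2 (G.ι (φ 0).1) = v
          rw [h04, G.last, h5]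
        · rw [if_neg h5]
          right
          show G.σ b ((G.σ b).symm v) = v
          simp
    · intro v
      by_cases hv : ∃ i, i ≠ 0 ∧ G.ι i = v
      · simp only [dif_pos hv]
        exact Or.inl (hjZ _)
      · simp only [dif_neg hv]
        by_cases h5 : v = G.v5
        · rw [if_pos h5]; exact Or.inl (hjZ _)
        · rw [if_neg h5]
          exact Or.inr ⟨hpre v h5 hv, rfl⟩

theorem five_of_isTr [Finite V] (b : Bool) (Z : Set (Fin 5 × Bool))
    (h : IsTr G.σ (G.j '' Z ∪ G.X b)) : IsTr σ5 Z := by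
  have hZ5 : Z.ncard = 5 := by
    have h1 := h.ncard_eq
    have h2 := G.ncard_jX b Z
    omega
  obtain ⟨φ, hφ, hφi, hφr⟩ := h
  have hφZ : ∀ v, φ v ∉ G.X b → ∃ z ∈ Z, G.j z = φ v := by
    intro v hv
    have : φ v ∈ G.j '' Z ∪ G.X b := by rw [← hφr]; exact mem_range_self _
    exact this.resolve_right hv
  -- the exceptional vertex
  obtain ⟨w, hw, hwX⟩ : ∃ w, (w ∉ range G.ι ∨ w = G.ι 0) ∧ φ w ∉ G.X b := by
    by_contra hcon
    push Not at hcon
    have h1 : φ '' (insert (G.ι 0) (range G.ι)ᶜ) ⊆ G.X b := by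
      rintro _ ⟨v, hv, rfl⟩
      apply hcon
      rcases hv with hv | hv
      · exact Or.inr hv
      · exact Or.inl hv
    have h2 := Set.ncard_le_ncard h1 (Set.toFinite _)
    rw [Set.ncard_image_of_injective _ hφ, Set.ncard_insert_of_notMem (show G.ι 0 ∉ (range G.ι)ᶜ from fun h => h ⟨0, rfl⟩)
      (Set.toFinite _)] at h2
    have h3 := G.ncard_compl
    have h4 := G.ncard_X b
    omega
  have hιX : ∀ i : Fin 5, i ≠ 0 → φ (G.ι i) ∉ G.X b := by
    rintro i hi ⟨h1, h2⟩
    rcases hφi (G.ι i) with h | h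
    · exact h1 ⟨i, h.symm⟩
    · obtain ⟨k, hk4, hki⟩ : ∃ k : Fin 5, k ≠ 4 ∧ k + 1 = i := by
        have : ∀ i : Fin 5, i ≠ 0 → ∃ k : Fin 5, k ≠ 4 ∧ k + 1 = i := by decide
        exact this i hi
      have h' : G.σ (φ (G.ι i)).2 (φ (G.ι i)).1 = G.σ (φ (G.ι i)).2 (G.ι k) := by
        rw [h, G.step _ _ hk4, hki]
      exact h1 ⟨k, ((G.σ _).injective h').symm⟩
  set W : Fin 5 → V := fun i => if i = 0 then w else G.ι i with hW
  have hWX : ∀ i, φ (W i) ∉ G.X b := by
    intro i
    by_cases hi : i = 0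
    · simp only [hW, if_pos hi]; exact hwX
    · simp only [hW, if_neg hi]; exact hιX i hi
  have hwne : ∀ k : Fin 5, k ≠ 0 → w ≠ G.ι k := by
    rintro k hk rfl
    rcases hw with hw | hw
    · exact hw ⟨k, rfl⟩
    · exact hk (G.inj hw)
  have hWinj : Injective W := by
    intro i k hik
    by_cases hi : i = 0
    · by_cases hk : k = 0
      · rw [hi, hk]
      · simp only [hW, if_pos hi, if_neg hk] at hik
        exact absurd hik (hwne k hk)
    · by_cases hk : k = 0
      · simp only [hW, if_neg hi, if_pos hk] at hik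
        exact absurd hik.symm (hwne i hi)
      · simp only [hW, if_neg hi, if_neg hk] at hik
        exact G.inj hik
  choose z hzZ hz using fun i => hφZ (W i) (hWX i)
  have hzinj : Injective z := by
    intro i k hik
    apply hWinj
    apply hφ
    rw [← hz i, ← hz k, hik]
  refine ⟨z, hzinj, ?_, ?_⟩
  · intro i
    have hinc := hφi (W i)
    rw [← hz i] at hinc
    have hinc' : G.ι (z i).1 = W i ∨ G.σ (z i).2 (G.ι (z i).1) = W i := hinc
    show (z i).1 = i ∨ (z i).1 + 1 = i
    by_cases hi : i = 0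
    · subst hi
      have hW0 : W 0 = w := by simp [hW]
      rw [hW0] at hinc'
      rcases hinc' with h | h
      · left
        rcases hw with hw | hw
        · exact absurd ⟨_, h⟩ hw
        · rw [hw] at h; exact G.inj h
      · right
        by_cases h4 : (z 0).1 = 4
        · rw [h4]; decide
        · exfalso
          rw [G.step _ _ h4] at h
          rcases hw with hw | hw
          · exact hw ⟨_, h⟩
          · rw [hw] at h
            have h5 := G.inj h
            have : ∀ k : Fin 5, k ≠ 4 → k + 1 ≠ 0 := by decide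
            exact this _ h4 h5
    · have hWi : W i = G.ι i := by simp [hW, hi]
      rw [hWi] at hinc'
      rcases hinc' with h | h
      · left; exact G.inj h
      · right
        by_cases h4 : (z i).1 = 4
        · exfalso
          rw [h4, G.last] at h
          exact G.v5_notMem ⟨i, h.symm⟩
        · rw [G.step _ _ h4] at h
          exact G.inj h
  · apply Set.eq_of_subset_of_ncard_le
    · rintro _ ⟨i, rfl⟩; exact hzZ i
    · rw [← Set.image_univ, Set.ncard_image_of_injective _ hzinj, Set.ncard_univ, hZ5]; simp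
    · exact Set.toFinite _

theorem cyc_cV (b : Bool) (s : Finset (Fin 5)) :
    cyc (G.cV b s) = G.j '' cyc (c5 b s) ∪ G.X b := by
  ext ⟨v, d⟩
  constructor
  · intro h
    have h' : d = G.cV b s v := h
    by_cases hv : v ∈ range G.ι
    · obtain ⟨i, rfl⟩ := hv
      left
      refine ⟨(i, d), ?_, rfl⟩
      rw [G.cV_ι] at h'
      exact h'
    · right
      rw [G.cV_out b s hv] at h'
      exact ⟨hv, h'⟩
  · rintro (⟨⟨i, e⟩, h1, h2⟩ | ⟨h1, h2⟩)
    · simp only [j, Prod.mk.injEq] at h2
      obtain ⟨rfl, rfl⟩ := h2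
      show e = G.cV b s (G.ι i)
      rw [G.cV_ι]
      exact h1
    · have h2' : d = b := h2
      show d = G.cV b s v
      rw [G.cV_out b s h1]; exact h2'

theorem base_iff [Finite V] [Nonempty V] (b : Bool) (Z : Set (Fin 5 × Bool)) :
    (MM (D5 b)).IsBase Z ↔ (MM G.data).IsBase (G.j '' Z ∪ G.X b) := by
  rw [MM_isBase, MM_isBase]
  have himg : ∀ Z', G.j '' Z ∪ G.X b = G.j '' Z' ∪ G.X b → Z = Z' := by
    intro Z' h
    apply (Set.image_injective.2 G.j_inj)
    have h1 : (G.j '' Z ∪ G.X b) \ G.X b = G.j '' Z := by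
      rw [Set.union_sdiff_right, (G.disj_jX b Z).sdiff_eq_left]
    have h2 : (G.j '' Z' ∪ G.X b) \ G.X b = G.j '' Z' := by
      rw [Set.union_sdiff_right, (G.disj_jX b Z').sdiff_eq_left]
    rw [← h1, ← h2, h]
  constructor
  · rintro ⟨h1, h2⟩
    refine ⟨G.isTr_of_five b Z h1, ?_⟩
    rintro c ⟨b', s, hs, rfl⟩ heq
    have hb : b = b' := by
      have : ((G.v5, b) : V × Bool) ∈ cyc (G.cV b' s) := by
        rw [← heq]; exact Or.inr ⟨G.v5_notMem, rfl⟩
      have h3 : b = G.cV b' s G.v5 := this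
      rw [G.cV_out b' s G.v5_notMem] at h3
      exact h3
    subst hb
    rw [G.cyc_cV] at heq
    apply h2 (c5 b s) _ (himg _ heq)
    rcases hs with rfl | rfl
    · exact Or.inl rfl
    · exact Or.inr rfl
  · rintro ⟨h1, h2⟩
    refine ⟨G.five_of_isTr b Z h1, ?_⟩
    rintro c hc rfl
    have : ∃ s, (s = ∅ ∨ s = sw b) ∧ c = c5 b s := by
      rcases hc with hc | hc
      · exact ⟨∅, Or.inl rfl, hc⟩
      · exact ⟨sw b, Or.inr rfl, hc⟩
    obtain ⟨s, hs, rfl⟩ := this
    exact h2 (G.cV b s) ⟨b, s, hs, rfl⟩ (G.cyc_cV b s).symm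

/-- The small matroid of kind `b` is a minor of the big one. -/
theorem hasMinor [Finite V] [Nonempty V] (b : Bool) :
    ∃ N : Matroid (V × Bool), N.IsMinor (MM G.data) ∧ ∃ e : ↥N.E ≃ ↥(MM (D5 b)).E,
      ∀ I : Set ↥N.E, N.Indep (Subtype.val '' I) ↔
        (MM (D5 b)).Indep (Subtype.val '' (e '' I)) := by
  classical
  set M := MM G.data with hM
  set Y : Set (V × Bool) := {e | e.1 ∉ range G.ι ∧ e.2 = !b} with hY
  set X := G.X b with hX
  obtain ⟨Z₀, hZ₀⟩ := (MM (D5 b)).exists_isBase
  have hB₀ : M.IsBase (G.j '' Z₀ ∪ X) := (G.base_iff b Z₀).1 hZ₀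
  have hXi : M.Indep X := hB₀.indep.subset subset_union_right
  have hYd : ∀ Z, Disjoint (G.j '' Z ∪ X) Y := by
    intro Z
    rw [Set.disjoint_left]
    rintro e he ⟨h1, h2⟩
    rcases he with ⟨z, hz, rfl⟩ | he
    · exact h1 ⟨z.1, rfl⟩
    · rw [he.2] at h2
      cases b <;> simp at h2
  have hYc : M.Coindep Y := by
    rw [Matroid.coindep_iff_subset_compl_isBase]
    refine ⟨_, hB₀, ?_⟩
    intro e he
    exact ⟨mem_univ _, fun h => Set.disjoint_left.1 (hYd Z₀) h he⟩
  have hYX : Disjoint Y X := ((hYd ∅).mono_left subset_union_right).symm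
  have hYc' : (M.contract X).Coindep Y := hYc.coindep_contract_of_disjoint hYX
  set N := (M.contract X).delete Y with hN
  have hNb : ∀ B, N.IsBase B ↔ M.IsBase (B ∪ X) ∧ Disjoint B X ∧ Disjoint B Y := by
    intro B
    rw [hN, hYc'.delete_isBase_iff, hXi.contract_isBase_iff, and_assoc]
  have hNE : N.E = range G.j := by
    have : N.E = (Set.univ \ X) \ Y := rfl
    rw [this]
    ext ⟨v, d⟩
    constructor
    · rintro ⟨⟨-, h1⟩, h2⟩
      by_cases hv : v ∈ range G.ι
      · obtain ⟨i, rfl⟩ := hv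
        exact ⟨(i, d), rfl⟩
      · exfalso
        by_cases hd : d = b
        · exact h1 ⟨hv, hd⟩
        · exact h2 ⟨hv, by cases b <;> cases d <;> simp_all⟩
    · rintro ⟨z, hz⟩
      refine ⟨⟨mem_univ _, ?_⟩, ?_⟩
      · rintro ⟨h1, -⟩
        apply h1
        rw [← hz]
        exact ⟨z.1, rfl⟩
      · rintro ⟨h1, -⟩
        apply h1
        rw [← hz]
        exact ⟨z.1, rfl⟩
  have hNb2 : ∀ Z, N.IsBase (G.j '' Z) ↔ (MM (D5 b)).IsBase Z := by
    intro Z
    rw [hNb, G.base_iff b Z]
    constructor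
    · exact fun h => h.1
    · intro h
      exact ⟨h, G.disj_jX b Z, (hYd Z).mono_left subset_union_left⟩
  have hNi : ∀ Z, N.Indep (G.j '' Z) ↔ (MM (D5 b)).Indep Z := by
    intro Z
    rw [Matroid.indep_iff, Matroid.indep_iff]
    constructor
    · rintro ⟨B, hB, hZB⟩
      have hBE : B ⊆ range G.j := by rw [← hNE]; exact hB.subset_ground
      obtain ⟨Z', rfl⟩ := Set.subset_range_iff_exists_image_eq.1 hBE
      refine ⟨Z', (hNb2 Z').1 hB, ?_⟩
      exact (Set.image_subset_image_iff G.j_inj).1 hZB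
    · rintro ⟨B, hB, hZB⟩
      exact ⟨G.j '' B, (hNb2 B).2 hB, Set.image_mono hZB⟩
  refine ⟨N, ⟨X, Y, rfl⟩, ?_⟩
  -- the equivalence
  let e₁ : Fin 5 × Bool ≃ ↥(range G.j) := Equiv.ofInjective G.j G.j_inj
  let e₂ : ↥(range G.j) ≃ ↥N.E := Equiv.setCongr hNE.symm
  let e₃ : ↥(MM (D5 b)).E ≃ Fin 5 × Bool := Equiv.Set.univ _
  let e : ↥N.E ≃ ↥(MM (D5 b)).E := (e₃.trans (e₁.trans e₂)).symm
  refine ⟨e, ?_⟩
  intro I
  have key : (Subtype.val '' I : Set (V × Bool)) = G.j '' (Subtype.val '' (e '' I)) := by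
    have h1 : ∀ x : ↥N.E, G.j (e x).1 = x.1 := by
      intro x
      obtain ⟨y, rfl⟩ := (e₃.trans (e₁.trans e₂)).surjective x
      have : e ((e₃.trans (e₁.trans e₂)) y) = y := Equiv.symm_apply_apply _ _
      rw [this]
      rfl
    ext y
    constructor
    · rintro ⟨x, hx, rfl⟩
      exact ⟨(e x).1, ⟨e x, ⟨x, hx, rfl⟩, rfl⟩, h1 x⟩
    · rintro ⟨_, ⟨_, ⟨x, hx, rfl⟩, rfl⟩, rfl⟩
      exact ⟨x, hx, (h1 x).symm⟩
  rw [key]
  exact hNi _

end Big

end Pool.Agent.MP97f6bf
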