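import Mathlib
import Pool.Agent.Lib.MP_97f6bf_co.Embed

set_option autoImplicit false

namespace Pool.Agent.MP97f6bf

open Set Function

variable {V : Type}

theorem iso_inj {β : Type} {N : Matroid (V × Bool)} {N₁ : Matroid β} (hE : N₁.E = univ)
    (e : ↥N.E ≃ ↥N₁.E)
    (he : ∀ I : Set ↥N.E, N.Indep (Subtype.val '' I) ↔ N₁.Indep (Subtype.val '' (e '' I))) :
    ∃ g : β → V × Bool, Injective g ∧ range g = N.E ∧
      ∀ Z, N.IsBase (g '' Z) ↔ N₁.IsBase Z := by
  have hm : ∀ z : β, z ∈ N₁.E := fun z => by rw [hE]; exact mem_univ z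
  refine ⟨fun z => (e.symm ⟨z, hm z⟩).1, ?_, ?_, ?_⟩
  · intro a b h
    have h1 := e.symm.injective (Subtype.ext h)
    exact congrArg Subtype.val h1
  · ext y
    constructor
    · rintro ⟨z, rfl⟩
      exact (e.symm ⟨z, hm z⟩).2
    · intro hy
      refine ⟨(e ⟨y, hy⟩).1, ?_⟩
      have : (⟨(e ⟨y, hy⟩).1, hm _⟩ : ↥N₁.E) = e ⟨y, hy⟩ := rfl
      simp only [this, Equiv.symm_apply_apply]
  · intro Z
    have h1 := isBase_of_iso e he {x | (e x).1 ∈ Z}
    have h2 : (Subtype.val '' {x : ↥N.E | (e x).1 ∈ Z} : Set (V × Bool))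
        = (fun z => (e.symm ⟨z, hm z⟩).1) '' Z := by
      ext y
      constructor
      · rintro ⟨x, hx, rfl⟩
        refine ⟨(e x).1, hx, ?_⟩
        have : (⟨(e x).1, hm _⟩ : ↥N₁.E) = e x := rfl
        simp only [this, Equiv.symm_apply_apply]
      · rintro ⟨z, hz, rfl⟩
        refine ⟨e.symm ⟨z, hm z⟩, ?_, rfl⟩
        simp only [mem_ofPred_eq, Equiv.apply_symm_apply]
        exact hz
    have h3 : (Subtype.val '' (e '' {x : ↥N.E | (e x).1 ∈ Z}) : Set β) = Z := by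
      ext y
      constructor
      · rintro ⟨_, ⟨x, hx, rfl⟩, rfl⟩
        exact hx
      · intro hy
        refine ⟨⟨y, hm y⟩, ⟨e.symm ⟨y, hm y⟩, ?_, ?_⟩, rfl⟩
        · simp only [mem_ofPred_eq, Equiv.apply_symm_apply]; exact hy
        · simp
    rw [h2, h3] at h1
    exact h1

/-- difference set of two transversals -/
theorem cyc_sdiff_ncard [Finite V] (c c' : V → Bool) :
    (cyc c \ cyc c').ncard = {v | c v ≠ c' v}.ncard := by
  have : cyc c \ cyc c' = (fun v => (v, c v)) '' {v | c v ≠ c' v} := by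
    ext ⟨v, d⟩
    constructor
    · rintro ⟨h1, h2⟩
      have h1' : d = c v := h1
      refine ⟨v, ?_, by rw [h1']⟩
      intro h
      apply h2
      show d = c' v
      rw [h1', h]
    · rintro ⟨w, hw, h⟩
      simp only [Prod.mk.injEq] at h
      obtain ⟨rfl, rfl⟩ := h
      exact ⟨rfl, hw⟩
  rw [this, Set.ncard_image_of_injective]
  intro x y h
  exact (Prod.mk.inj h).1

theorem c5_sdiff (b : Bool) : (cyc (c5 b ∅) \ cyc (c5 b (sw b))).ncard = (sw b).card := by
  rw [cyc_sdiff_ncard, ← Set.ncard_coe_finset]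
  congr 1
  ext i
  simp only [c5, mem_ofPred_eq, Finset.notMem_empty, if_false, Finset.mem_coe]
  by_cases hi : i ∈ sw b
  · simp [hi]
  · simp [hi]

theorem sw_card_pos (b : Bool) : 0 < (sw b).card := by cases b <;> decide
theorem sw_card_le (b : Bool) : (sw b).card ≤ 3 := by cases b <;> decide
theorem sw_card_inj (b b' : Bool) (h : (sw b).card = (sw b').card) : b = b' := by
  revert h; cases b <;> cases b' <;> decide

namespace Big

variable (G : Big V)

theorem cV_ne_ncard_same [Finite V] (b : Bool) {s s' : Finset (Fin 5)}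
    (hs : s = ∅ ∨ s = sw b) (hs' : s' = ∅ ∨ s' = sw b)
    (hne : 0 < {v | G.cV b s v ≠ G.cV b s' v}.ncard) :
    {v | G.cV b s v ≠ G.cV b s' v}.ncard = (sw b).card := by
  have main : ∀ s s' : Finset (Fin 5), ((s = ∅ ∧ s' = sw b) ∨ (s = sw b ∧ s' = ∅)) →
      {v | G.cV b s v ≠ G.cV b s' v}.ncard = (sw b).card := by
    intro s s' h
    have : {v | G.cV b s v ≠ G.cV b s' v} = G.ι '' (sw b : Set (Fin 5)) := by
      ext v
      constructor
      · intro hv
        by_cases hr : v ∈ range G.ι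
        · obtain ⟨i, rfl⟩ := hr
          refine ⟨i, ?_, rfl⟩
          simp only [mem_ofPred_eq] at hv
          rw [G.cV_ι, G.cV_ι] at hv
          by_contra hi
          have hi' : i ∉ sw b := hi
          rcases h with ⟨rfl, rfl⟩ | ⟨rfl, rfl⟩
          · apply hv; simp [c5, hi']
          · apply hv; simp [c5, hi']
        · simp only [mem_ofPred_eq] at hv
          rw [G.cV_out _ _ hr, G.cV_out _ _ hr] at hv
          exact absurd rfl hv
      · rintro ⟨i, hi, rfl⟩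
        have hi' : i ∈ sw b := hi
        simp only [mem_ofPred_eq]
        rcases h with ⟨rfl, rfl⟩ | ⟨rfl, rfl⟩
        · exact G.cV_empty_ne b hi'
        · exact (G.cV_empty_ne b hi').symm
    rw [this, Set.ncard_image_of_injective _ G.inj, Set.ncard_coe_finset]
  rcases hs with rfl | rfl <;> rcases hs' with rfl | rfl
  · simp at hne
  · exact main _ _ (Or.inl ⟨rfl, rfl⟩)
  · exact main _ _ (Or.inr ⟨rfl, rfl⟩)
  · simp at hne

theorem cV_ne_ncard_diff [Finite V] {b b' : Bool} (hb : b ≠ b') {s s' : Finset (Fin 5)}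
    (hs : s = ∅ ∨ s = sw b) (hs' : s' = ∅ ∨ s' = sw b') :
    4 ≤ {v | G.cV b s v ≠ G.cV b' s' v}.ncard := by
  have h34 : ∀ i : Fin 5, (i = 3 ∨ i = 4) → G.cV b s (G.ι i) ≠ G.cV b' s' (G.ι i) := by
    intro i hi
    have hnot : ∀ (b : Bool), i ∉ sw b := by
      intro b
      rcases hi with rfl | rfl <;> cases b <;> decide
    have h1 : ∀ (b : Bool) (s : Finset (Fin 5)), (s = ∅ ∨ s = sw b) → i ∉ s := by
      rintro b s (rfl | rfl)
      · simp
      · exact hnot b
    rw [G.cV_ι, G.cV_ι]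
    unfold c5
    rw [if_neg (h1 b s hs), if_neg (h1 b' s' hs')]
    exact hb
  have hsub : ({G.v5, G.v6, G.ι 3, G.ι 4} : Set V) ⊆ {v | G.cV b s v ≠ G.cV b' s' v} := by
    rintro v (rfl | rfl | rfl | rfl)
    · simp only [mem_ofPred_eq]
      rw [G.cV_out _ _ G.v5_notMem, G.cV_out _ _ G.v5_notMem]; exact hb
    · simp only [mem_ofPred_eq]
      rw [G.cV_out _ _ G.v6_notMem, G.cV_out _ _ G.v6_notMem]; exact hb
    · exact h34 3 (Or.inl rfl)
    · exact h34 4 (Or.inr rfl)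
  have hcard : ({G.v5, G.v6, G.ι 3, G.ι 4} : Set V).ncard = 4 := by
    have e1 : G.v5 ∉ ({G.v6, G.ι 3, G.ι 4} : Set V) := by
      rintro (h | h | h)
      · exact G.v6_ne h.symm
      · exact G.v5_notMem ⟨3, h.symm⟩
      · exact G.v5_notMem ⟨4, h.symm⟩
    have e2 : G.v6 ∉ ({G.ι 3, G.ι 4} : Set V) := by
      rintro (h | h)
      · exact G.v6_notMem ⟨3, h.symm⟩
      · exact G.v6_notMem ⟨4, h.symm⟩
    have e3 : G.ι 3 ∉ ({G.ι 4} : Set V) := by
      intro h
      have := G.inj h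
      exact absurd this (by decide)
    rw [Set.ncard_insert_of_notMem e1, Set.ncard_insert_of_notMem e2,
      Set.ncard_insert_of_notMem e3, Set.ncard_singleton]
  rw [← hcard]
  exact Set.ncard_le_ncard hsub (Set.toFinite _)

/-- A copy of the small matroid of kind `b` determines the status of all outer elements. -/
theorem rigid [Finite V] [Nonempty V] (b : Bool) {N : Matroid (V × Bool)} {X : Set (V × Bool)}
    (hX : BaseForm (MM G.data) N X) (e : ↥N.E ≃ ↥(MM (D5 b)).E)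
    (he : ∀ I : Set ↥N.E, N.Indep (Subtype.val '' I) ↔
      (MM (D5 b)).Indep (Subtype.val '' (e '' I))) :
    ∀ v ∉ range G.ι, ((v, b) ∉ N.E → (v, b) ∈ X) ∧ (v, !b) ∉ X := by
  obtain ⟨g, hg, hgr, hgb⟩ := iso_inj (N₁ := MM (D5 b)) rfl e he
  have hfin : ∀ S : Set (V × Bool), S.Finite := fun S => Set.toFinite S
  have hNE : N.E.ncard = 10 := by
    rw [← hgr, ← Set.image_univ, Set.ncard_image_of_injective _ hg, Set.ncard_univ]; simp
  have hco : ∀ S, S ⊆ N.E → (∀ B, N.IsBase B → ∃ e ∈ B, e ∈ S) → 4 ≤ S.ncard := by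
    intro S hS h
    rw [← hgr] at hS
    obtain ⟨S', rfl⟩ := Set.subset_range_iff_exists_image_eq.1 hS
    rw [Set.ncard_image_of_injective _ hg]
    apply cogirth5 b
    intro B hB
    obtain ⟨y, ⟨z, hz, rfl⟩, ⟨w, hw, hwz⟩⟩ := h _ ((hgb B).2 hB)
    exact ⟨z, hz, by rw [← hg hwz]; exact hw⟩
  have hkey : ∀ c0 ∈ (D5 b).𝓒, ∃ c ∈ G.data.𝓒, g '' cyc c0 ∪ X = cyc c := by
    intro c0 hc0
    apply key_lemma G.data hX hNE
    · rw [← hgr]; exact Set.image_subset_range _ _
    · rw [Set.ncard_image_of_injective _ hg, cyc_ncard]; simp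
    · rw [hgb]; exact cyc_not_base _ hc0
    · rintro t ⟨t', ht', rfl⟩ y ⟨hy1, hy2⟩
      rw [← hgr] at hy1
      obtain ⟨y', rfl⟩ := hy1
      have hy' : y' ∉ cyc c0 := fun h => hy2 ⟨y', h, rfl⟩
      have := (hgb _).2 (free_base (D5 b) hc0 hy' ht')
      rw [Set.image_insert_eq, Set.image_sdiff hg, Set.image_singleton] at this
      exact this
    · exact hco
  obtain ⟨c₀, ⟨b₀, s₀, hs₀, rfl⟩, h₀⟩ := hkey (c5 b ∅) (Or.inl rfl)
  obtain ⟨c₁, ⟨b₁, s₁, hs₁, rfl⟩, h₁⟩ := hkey (c5 b (sw b)) (Or.inr rfl)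
  -- the difference of the two sets
  have hdX : ∀ Z, Disjoint (g '' Z) X := by
    intro Z
    refine hX.disj.symm.mono_left ?_
    rw [← hgr]; exact Set.image_subset_range _ _
  have hdiff : g '' (cyc (c5 b ∅) \ cyc (c5 b (sw b))) =
      cyc (G.cV b₀ s₀) \ cyc (G.cV b₁ s₁) := by
    rw [← h₀, ← h₁, Set.image_sdiff hg]
    ext x
    constructor
    · rintro ⟨hx1, hx2⟩
      refine ⟨Or.inl hx1, ?_⟩
      rintro (hx3 | hx3)
      · exact hx2 hx3
      · exact Set.disjoint_left.1 (hdX _) hx1 hx3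
    · rintro ⟨hx1 | hx1, hx2⟩
      · exact ⟨hx1, fun h => hx2 (Or.inl h)⟩
      · exact absurd (Or.inr hx1) hx2
  have hcount : {v | G.cV b₀ s₀ v ≠ G.cV b₁ s₁ v}.ncard = (sw b).card := by
    rw [← cyc_sdiff_ncard, ← hdiff, Set.ncard_image_of_injective _ hg, c5_sdiff]
  have hb01 : b₀ = b₁ := by
    by_contra hne
    have := G.cV_ne_ncard_diff hne hs₀ hs₁
    have := sw_card_le b
    omega
  subst hb01
  have hb : b = b₀ := by
    have h1 := G.cV_ne_ncard_same b₀ hs₀ hs₁ (by rw [hcount]; exact sw_card_pos b)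
    exact sw_card_inj _ _ (hcount.symm.trans h1)
  subst hb
  intro v hv
  constructor
  · intro hvN
    have h2 : ((v, b) : V × Bool) ∈ cyc (G.cV b s₀) := by
      show b = G.cV b s₀ v
      rw [G.cV_out _ _ hv]
    rw [← h₀] at h2
    rcases h2 with h2 | h2
    · exfalso
      apply hvN
      rw [← hgr]
      exact Set.image_subset_range _ _ h2
    · exact h2
  · intro hvX
    have h2 : ((v, !b) : V × Bool) ∈ cyc (G.cV b s₀) := by
      rw [← h₀]; exact Or.inr hvX
    have h3 : (!b) = G.cV b s₀ v := h2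
    rw [G.cV_out _ _ hv] at h3
    cases b <;> simp at h3

/-- a minor isomorphic to the small matroid of kind `b` -/
def HasMinor (b : Bool) {α : Type} (M : Matroid α) : Prop :=
  ∃ N : Matroid α, N.IsMinor M ∧ ∃ e : ↥N.E ≃ ↥(MM (D5 b)).E,
    ∀ I : Set ↥N.E, N.Indep (Subtype.val '' I) ↔ (MM (D5 b)).Indep (Subtype.val '' (e '' I))

/-- A minor having both small matroids as minors contains all outer elements. -/
theorem outer_subset [Finite V] [Nonempty V] {M' : Matroid (V × Bool)}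
    (hM' : M'.IsMinor (MM G.data)) (h : ∀ b, HasMinor b M') :
    {e : V × Bool | e.1 ∉ range G.ι} ⊆ M'.E := by
  rintro ⟨v, b⟩ hv
  by_contra hvM
  obtain ⟨X', hX'⟩ := exists_baseForm hM'
  have hfinM : M'.Finite := ⟨Set.toFinite _⟩
  obtain ⟨N₁, hN₁, e₁, he₁⟩ := h b
  obtain ⟨N₂, hN₂, e₂, he₂⟩ := h (!b)
  obtain ⟨X₁, hX₁⟩ := exists_baseForm hN₁
  obtain ⟨X₂, hX₂⟩ := exists_baseForm hN₂
  have r₁ := (G.rigid b (hX'.trans hX₁) e₁ he₁ v hv).1 (fun h => hvM (hX₁.sub h))
  have r₂ := (G.rigid (!b) (hX'.trans hX₂) e₂ he₂ v hv).2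
  rw [Bool.not_not] at r₂
  rcases r₁ with r₁ | r₁
  · exact hvM (hX₁.subX r₁)
  · exact r₂ (Or.inr r₁)

end Big

end Pool.Agent.MP97f6bf
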