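import Mathlib
import Pool.Agent.Lib.MP_97f6bf_co.Rigid

set_option autoImplicit false

namespace Pool.Agent.MP97f6bf

open Set Function

theorem rk_lower {α : Type} {M M' : Matroid α} [M.Finite] {X : Set α}
    (h : BaseForm M M' X) {J : Set α} (hJ : J ⊆ M'.E) (hJi : M.Indep J) :
    J.encard ≤ M'.eRk J + X.encard := by
  obtain ⟨I, hI⟩ := M'.exists_isBasis J
  obtain ⟨B', hB', hIB'⟩ := hI.indep.exists_isBase_superset
  have hB'E : B' ⊆ M'.E := hB'.subset_ground
  have hBX : M.IsBase (B' ∪ X) := (h.iff B' hB'E).1 hB'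
  have hIX : M.Indep (I ∪ X) := hBX.indep.subset (Set.union_subset_union_left _ hIB')
  have hbasis : M.IsBasis (I ∪ X) (J ∪ X) := by
    apply hIX.isBasis_of_forall_insert (Set.union_subset_union_left _ hI.subset)
    rintro e ⟨he1, he2⟩
    have heJ : e ∈ J := by
      rcases he1 with he1 | he1
      · exact he1
      · exact absurd (Or.inr he1) he2
    have heI : e ∉ I := fun h => he2 (Or.inl h)
    have hsubE : insert e (I ∪ X) ⊆ M.E := by
      rw [Set.insert_subset_iff]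
      exact ⟨h.sub (hJ heJ), hIX.subset_ground⟩
    apply Matroid.dep_of_not_indep _ hsubE
    · intro hind
      -- extend to a base
      obtain ⟨B'', hB'', hs1, hs2⟩ := hind.exists_isBase_subset_union_isBase hBX
      have hB''E : B'' \ X ⊆ M'.E := by
        rintro x ⟨hx1, hx2⟩
        rcases hs2 hx1 with hx | hx
        · rcases hx with rfl | hx
          · exact hJ heJ
          · rcases hx with hx | hx
            · exact hB'E (hIB' hx)
            · exact absurd hx hx2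
        · rcases hx with hx | hx
          · exact hB'E hx
          · exact absurd hx hx2
      have hXB : X ⊆ B'' := fun x hx => hs1 (Or.inr (Or.inr hx))
      have hbase : M'.IsBase (B'' \ X) := by
        rw [h.iff _ hB''E, Set.sdiff_union_of_subset hXB]
        exact hB''
      have hins : insert e I ⊆ B'' \ X := by
        rintro x (rfl | hx)
        · refine ⟨hs1 (Or.inl rfl), fun hxX => ?_⟩
          exact Set.disjoint_left.1 h.disj hxX (hJ heJ)
        · refine ⟨hs1 (Or.inr (Or.inl hx)), fun hxX => ?_⟩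
          exact Set.disjoint_left.1 h.disj hxX (hB'E (hIB' hx))
      have hindI : M'.Indep (insert e I) := hbase.indep.subset hins
      have := hI.mem_of_insert_indep heJ hindI
      exact heI this
  calc J.encard = M.eRk J := hJi.eRk_eq_encard.symm
    _ ≤ M.eRk (J ∪ X) := M.eRk_mono subset_union_left
    _ = (I ∪ X).encard := hbasis.eRk_eq_encard
    _ ≤ I.encard + X.encard := Set.encard_union_le _ _
    _ = M'.eRk J + X.encard := by rw [hI.eRk_eq_encard]

/-- Uncrossing with an auxiliary set `S`. -/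
theorem uncross {α : Type} (M : Matroid α) [M.Finite] {Z S : Set α} (hZ : Z ⊆ M.E)
    (hS : S ⊆ M.E) {a b n : ℕ} (ha : (a : ℕ∞) ≤ M.eRk (Z ∪ S))
    (hb : (b : ℕ∞) ≤ M.eRk ((M.E \ Z) ∪ S))
    (hn : M.eRk Z + M.eRk (M.E \ Z) ≤ (n : ℕ∞)) : a + b ≤ n + S.ncard := by
  have hfin : ∀ T : Set α, T ⊆ M.E → ∃ k : ℕ, M.eRk T = (k : ℕ∞) := by
    intro T hT
    have h1 : M.eRk T ≤ T.encard := M.eRk_le_encard T
    have h2 : T.encard ≠ ⊤ := by
      rw [Set.encard_ne_top_iff]; exact M.ground_finite.subset hT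
    have h3 : M.eRk T ≠ ⊤ := fun h => h2 (top_le_iff.1 (h ▸ h1))
    exact ⟨(M.eRk T).toNat, (ENat.natCast_toNat h3).symm⟩
  have hZc : M.E \ Z ⊆ M.E := sdiff_subset
  obtain ⟨r1, h1⟩ := hfin Z hZ
  obtain ⟨r2, h2⟩ := hfin (M.E \ Z) hZc
  obtain ⟨s, hs⟩ := hfin S hS
  obtain ⟨u1, hu1⟩ := hfin (Z ∪ S) (union_subset hZ hS)
  obtain ⟨u2, hu2⟩ := hfin ((M.E \ Z) ∪ S) (union_subset hZc hS)
  obtain ⟨i1, hi1⟩ := hfin (Z ∩ S) (inter_subset_left.trans hZ)
  obtain ⟨i2, hi2⟩ := hfin ((M.E \ Z) ∩ S) (inter_subset_left.trans hZc)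
  have e1 := M.eRk_inter_add_eRk_union_le Z S
  have e2 := M.eRk_inter_add_eRk_union_le (M.E \ Z) S
  have e3 := M.eRk_union_le_eRk_add_eRk (Z ∩ S) ((M.E \ Z) ∩ S)
  have e4 : (Z ∩ S) ∪ ((M.E \ Z) ∩ S) = S := by
    rw [← Set.union_inter_distrib_right, Set.union_sdiff_cancel hZ]
    exact Set.inter_eq_right.2 hS
  rw [e4] at e3
  have e5 : M.eRk S ≤ S.encard := M.eRk_le_encard S
  have e6 : S.encard = (S.ncard : ℕ∞) := ((M.ground_finite.subset hS).cast_ncard_eq).symm
  rw [hi1, hu1, h1, hs] at e1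
  rw [hi2, hu2, h2, hs] at e2
  rw [hs, hi1, hi2] at e3
  rw [hs, e6] at e5
  rw [h1, h2] at hn
  rw [hu1] at ha
  rw [hu2] at hb
  norm_cast at *
  omega

end Pool.Agent.MP97f6bf
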