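import Mathlib
import Pool.Agent.Lib.MP_97f6bf_co.Rank

set_option autoImplicit false

namespace Pool.Agent.MP97f6bf

open Set Function

/-- the vertex set -/
abbrev VV (m : ℕ) := Fin 6 ⊕ (Fin m × Fin m)

/-- the structure with rows connected completely by the second cycle -/
structure Grid (k : ℕ) where
  G : Big (VV (k + 1))
  ι_eq : ∀ i, G.ι i = Sum.inl i.castSucc
  v5_eq : G.v5 = Sum.inl 5
  swp : ∀ p q : Fin (k + 1), p < q → G.σ true (Sum.inr (p, q)) = Sum.inr (q, p)
  nxt : ∀ (p : Fin (k + 1)) (q : Fin k),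
    G.σ false (Sum.inr (p, q.castSucc)) = Sum.inr (p, q.succ)

/-- the edge of the second cycle joining the rows `p` and `q` -/
def ww {m : ℕ} (p q : Fin m) : VV m × Bool :=
  if p < q then (Sum.inr (p, q), true) else (Sum.inr (q, p), true)

theorem ww_comm {m : ℕ} (p q : Fin m) : ww p q = ww q p := by
  unfold ww
  rcases lt_trichotomy p q with h | h | h
  · rw [if_pos h, if_neg (not_lt.2 h.le)]
  · subst h; rfl
  · rw [if_neg (not_lt.2 h.le), if_pos h]

theorem ww_snd {m : ℕ} (p q : Fin m) : (ww p q).2 = true := by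
  unfold ww; split_ifs <;> rfl

theorem ww_inj {m : ℕ} {p q p' q' : Fin m} (h : ww p q = ww p' q') :
    (p = p' ∧ q = q') ∨ (p = q' ∧ q = p') := by
  unfold ww at h
  split_ifs at h <;> simp only [Prod.mk.injEq, Sum.inr.injEq, and_true] at h <;> tauto

theorem ww_ne_inl {m : ℕ} (p q : Fin m) (i : Fin 6) : (ww p q).1 ≠ Sum.inl i := by
  unfold ww; split_ifs <;> simp

/-- the rows -/
def SS (k : ℕ) : Set (VV (k + 1) × Bool) :=
  range (fun x : Fin (k + 1) × Fin k => (Sum.inr (x.1, x.2.castSucc), false))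

theorem SS_ncard (k : ℕ) : (SS k).ncard = (k + 1) * k := by
  unfold SS
  rw [← Set.image_univ, Set.ncard_image_of_injective, Set.ncard_univ]
  · simp
  · rintro ⟨a, b⟩ ⟨c, d⟩ h
    simp only [Prod.mk.injEq, Sum.inr.injEq, and_true, Fin.castSucc_inj] at h
    rw [h.1, h.2]

namespace Grid

variable {k : ℕ} (H : Grid k)

/-- the matching -/
def mat (P : Finset (Fin (k + 1))) (q : Fin (k + 1) → Fin (k + 1)) :
    VV (k + 1) → VV (k + 1) × Bool
  | Sum.inl i => (Sum.inl i, false)
  | Sum.inr (p, r) =>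
    if p ∈ P then
      (if r < q p then (Sum.inr (p, r), false)
       else if r = q p then ww p (q p)
       else (Sum.inr (p, ⟨r.val - 1, by omega⟩), false))
    else (Sum.inr (p, r), false)

theorem mat_inl (P : Finset (Fin (k + 1))) (q : Fin (k + 1) → Fin (k + 1)) (i : Fin 6) :
    mat P q (Sum.inl i) = (Sum.inl i, false) := rfl

theorem mat_out (P : Finset (Fin (k + 1))) (q : Fin (k + 1) → Fin (k + 1)) {p r : Fin (k + 1)}
    (hp : p ∉ P) : mat P q (Sum.inr (p, r)) = (Sum.inr (p, r), false) := by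
  simp only [mat, if_neg hp]

theorem mat_lt (P : Finset (Fin (k + 1))) (q : Fin (k + 1) → Fin (k + 1)) {p r : Fin (k + 1)}
    (hp : p ∈ P) (hr : r < q p) : mat P q (Sum.inr (p, r)) = (Sum.inr (p, r), false) := by
  simp only [mat, if_pos hp, if_pos hr]

theorem mat_eq (P : Finset (Fin (k + 1))) (q : Fin (k + 1) → Fin (k + 1)) {p : Fin (k + 1)}
    (hp : p ∈ P) : mat P q (Sum.inr (p, q p)) = ww p (q p) := by
  simp only [mat, if_pos hp, lt_irrefl, if_false, if_true]

theorem mat_gt (P : Finset (Fin (k + 1))) (q : Fin (k + 1) → Fin (k + 1)) {p r : Fin (k + 1)}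
    (hp : p ∈ P) (hr : q p < r) :
    mat P q (Sum.inr (p, r)) = (Sum.inr (p, ⟨r.val - 1, by omega⟩), false) := by
  simp only [mat, if_pos hp, if_neg (not_lt.2 hr.le), if_neg (ne_of_gt hr)]

theorem mat_false (P : Finset (Fin (k + 1))) (q : Fin (k + 1) → Fin (k + 1))
    (p r : Fin (k + 1)) (h : ¬ (p ∈ P ∧ r = q p)) :
    ∃ r' : Fin (k + 1), mat P q (Sum.inr (p, r)) = (Sum.inr (p, r'), false) ∧
      ((r' = r ∧ (p ∈ P → r < q p)) ∨ (r'.val + 1 = r.val ∧ p ∈ P ∧ q p < r)) := by
  by_cases hp : p ∈ P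
  · rcases lt_trichotomy r (q p) with hr | hr | hr
    · exact ⟨r, mat_lt P q hp hr, Or.inl ⟨rfl, fun _ => hr⟩⟩
    · exact absurd ⟨hp, hr⟩ h
    · refine ⟨⟨r.val - 1, by omega⟩, mat_gt P q hp hr, Or.inr ⟨?_, hp, hr⟩⟩
      have : (q p).val < r.val := hr
      show r.val - 1 + 1 = r.val
      omega
  · exact ⟨r, mat_out P q hp, Or.inl ⟨rfl, fun h => absurd h hp⟩⟩

theorem mat_inj (P : Finset (Fin (k + 1))) (q : Fin (k + 1) → Fin (k + 1))
    (hinj : ∀ p ∈ P, ∀ p' ∈ P, ww p (q p) = ww p' (q p') → p = p') :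
    Injective (mat P q) := by
  rintro (i | ⟨p, r⟩) (i' | ⟨p', r'⟩) h
  · rw [mat_inl, mat_inl] at h
    simpa using h
  · exfalso
    rw [mat_inl] at h
    by_cases hc : p' ∈ P ∧ r' = q p'
    · rw [hc.2, mat_eq P q hc.1] at h
      exact ww_ne_inl _ _ i (by rw [← h])
    · obtain ⟨x, hx, -⟩ := mat_false P q p' r' hc
      rw [hx] at h
      simp at h
  · exfalso
    rw [mat_inl] at h
    by_cases hc : p ∈ P ∧ r = q p
    · rw [hc.2, mat_eq P q hc.1] at h
      exact ww_ne_inl _ _ i' (by rw [h])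
    · obtain ⟨x, hx, -⟩ := mat_false P q p r hc
      rw [hx] at h
      simp at h
  · by_cases hc : p ∈ P ∧ r = q p
    · by_cases hc' : p' ∈ P ∧ r' = q p'
      · rw [hc.2, hc'.2, mat_eq P q hc.1, mat_eq P q hc'.1] at h
        have := hinj p hc.1 p' hc'.1 h
        subst this
        rw [hc.2, hc'.2]
      · exfalso
        obtain ⟨x, hx, -⟩ := mat_false P q p' r' hc'
        rw [hc.2, mat_eq P q hc.1, hx] at h
        have := ww_snd p (q p)
        rw [h] at this
        simp at this
    · by_cases hc' : p' ∈ P ∧ r' = q p'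
      · exfalso
        obtain ⟨x, hx, -⟩ := mat_false P q p r hc
        rw [hc'.2, mat_eq P q hc'.1, hx] at h
        have := ww_snd p' (q p')
        rw [← h] at this
        simp at this
      · obtain ⟨x, hx, hx2⟩ := mat_false P q p r hc
        obtain ⟨x', hx', hx2'⟩ := mat_false P q p' r' hc'
        rw [hx, hx'] at h
        simp only [Prod.mk.injEq, Sum.inr.injEq, and_true] at h
        obtain ⟨rfl, rfl⟩ := h
        have : r = r' := by
          rcases hx2 with ⟨h1, h2⟩ | ⟨h1, h2, h3⟩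
          · rcases hx2' with ⟨h1', h2'⟩ | ⟨h1', h2', h3'⟩
            · rw [← h1, ← h1']
            · exfalso
              have h4 := h2 h2'
              subst h1
              have e1 : x.val < (q p).val := h4
              have e2 : (q p).val < r'.val := h3'
              omega
          · rcases hx2' with ⟨h1', h2'⟩ | ⟨h1', h2', h3'⟩
            · exfalso
              have h4 := h2' h2
              subst h1'
              have e1 : x.val < (q p).val := h4
              have e2 : (q p).val < r.val := h3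
              omega
            · apply Fin.ext; omega
        rw [this]

theorem mat_inc (P : Finset (Fin (k + 1))) (q : Fin (k + 1) → Fin (k + 1))
    (hq : ∀ p ∈ P, q p ≠ p) (v : VV (k + 1)) : Inc H.G.σ v (mat P q v) := by
  rcases v with i | ⟨p, r⟩
  · exact Or.inl rfl
  · by_cases hc : p ∈ P ∧ r = q p
    · rw [hc.2, mat_eq P q hc.1]
      unfold ww
      rcases lt_or_gt_of_ne (hq p hc.1) with h | h
      · rw [if_neg (not_lt.2 h.le)]
        right
        exact H.swp _ _ h
      · rw [if_pos h]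
        left; rfl
    · obtain ⟨x, hx, hx2⟩ := mat_false P q p r hc
      rw [hx]
      rcases hx2 with ⟨h1, h2⟩ | ⟨h1, h2, h3⟩
      · left; rw [h1]
      · right
        have hk : x.val < k := by
          have := r.isLt
          omega
        have e2 : r = (⟨x.val, hk⟩ : Fin k).succ := by
          apply Fin.ext
          simp only [Fin.val_succ]
          omega
        show H.G.σ false (Sum.inr (p, x)) = Sum.inr (p, r)
        rw [e2]
        exact H.nxt p ⟨x.val, hk⟩

/-- The rows together with distinct connecting edges are independent. -/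
theorem indep_J (P : Finset (Fin (k + 1))) (hP : P.Nonempty) (q : Fin (k + 1) → Fin (k + 1))
    (hq : ∀ p ∈ P, q p ≠ p)
    (hinj : ∀ p ∈ P, ∀ p' ∈ P, ww p (q p) = ww p' (q p') → p = p') :
    (MM H.G.data).Indep (SS k ∪ (fun p => ww p (q p)) '' (P : Set (Fin (k + 1)))) := by
  rw [Matroid.indep_iff]
  refine ⟨range (mat P q), ?_, ?_⟩
  · rw [MM_isBase]
    refine ⟨⟨mat P q, mat_inj P q hinj, H.mat_inc P q hq, rfl⟩, ?_⟩
    rintro c ⟨b, s, hs, rfl⟩ heq
    cases b
    · obtain ⟨p, hp⟩ := hP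
      have h1 : ww p (q p) ∈ cyc (H.G.cV false s) := by
        rw [← heq]; exact ⟨Sum.inr (p, q p), mat_eq P q hp⟩
      have h2 : (ww p (q p)).2 = H.G.cV false s (ww p (q p)).1 := h1
      rw [ww_snd, H.G.cV_out] at h2
      · exact absurd h2 (by decide)
      · rintro ⟨i, hi⟩
        rw [H.ι_eq] at hi
        exact ww_ne_inl _ _ _ hi.symm
    · have h1 : ((Sum.inl 5, false) : VV (k + 1) × Bool) ∈ cyc (H.G.cV true s) := by
        rw [← heq]; exact ⟨Sum.inl 5, rfl⟩
      have h2 : false = H.G.cV true s (Sum.inl 5) := h1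
      rw [← H.v5_eq, H.G.cV_out _ _ H.G.v5_notMem] at h2
      exact absurd h2 (by decide)
  · rintro e (⟨⟨p, r⟩, rfl⟩ | ⟨p, hp, rfl⟩)
    · simp only
      by_cases hp : p ∈ P
      · by_cases hr : r.castSucc < q p
        · exact ⟨Sum.inr (p, r.castSucc), mat_lt P q hp hr⟩
        · have hr' : q p < r.succ := by
            have h1 : ¬ (r.val < (q p).val) := hr
            show (q p).val < r.val + 1
            omega
          refine ⟨Sum.inr (p, r.succ), ?_⟩
          rw [mat_gt P q hp hr']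
          rfl
      · exact ⟨Sum.inr (p, r.castSucc), mat_out P q hp⟩
    · exact ⟨Sum.inr (p, q p), mat_eq P q hp⟩

theorem J_ncard (P : Finset (Fin (k + 1))) (q : Fin (k + 1) → Fin (k + 1))
    (hinj : ∀ p ∈ P, ∀ p' ∈ P, ww p (q p) = ww p' (q p') → p = p') :
    (SS k ∪ (fun p => ww p (q p)) '' (P : Set (Fin (k + 1)))).ncard = (k + 1) * k + P.card := by
  rw [Set.ncard_union_eq _ (Set.toFinite _) (Set.toFinite _), SS_ncard,
    Set.InjOn.ncard_image, Set.ncard_coe_finset]
  · intro p hp p' hp' h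
    exact hinj p hp p' hp' h
  · rw [Set.disjoint_left]
    rintro _ ⟨x, rfl⟩ ⟨p, -, h⟩
    have := ww_snd p (q p)
    simp only at h
    rw [h] at this
    simp at this

end Grid

/-- degree of row `p` in `Z` -/
noncomputable def deg {m : ℕ} (Z : Set (VV m × Bool)) (p : Fin m) : ℕ :=
  {q | q ≠ p ∧ ww p q ∈ Z}.ncard

/-- rows with at least two connecting edges in `Z` -/
def gd {m : ℕ} (Z : Set (VV m × Bool)) : Set (Fin m) := {p | 2 ≤ deg Z p}

open Classical in
/-- Hall's theorem for rows of degree at least two. -/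
theorem hall_rows {m : ℕ} (Z : Set (VV m × Bool)) :
    ∃ q : Fin m → Fin m, (∀ p ∈ gd Z, q p ≠ p ∧ ww p (q p) ∈ Z) ∧
      ∀ p ∈ gd Z, ∀ p' ∈ gd Z, ww p (q p) = ww p' (q p') → p = p' := by
  set t : ↥(gd Z) → Finset (VV m × Bool) := fun p =>
    (Finset.univ.filter (fun q => q ≠ p.1 ∧ ww p.1 q ∈ Z)).image (ww p.1) with ht
  have hmem : ∀ (p : ↥(gd Z)) e, e ∈ t p ↔ ∃ q, (q ≠ p.1 ∧ ww p.1 q ∈ Z) ∧ ww p.1 q = e := by
    intro p e
    simp [ht]
  have hcard : ∀ p : ↥(gd Z), 2 ≤ (t p).card := by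
    intro p
    rw [ht, Finset.card_image_of_injOn]
    · have h1 : 2 ≤ deg Z p.1 := p.2
      unfold deg at h1
      have h2 : ({q | q ≠ p.1 ∧ ww p.1 q ∈ Z} : Set (Fin m)) =
          ((Finset.univ.filter (fun q => q ≠ p.1 ∧ ww p.1 q ∈ Z) : Finset (Fin m)) : Set (Fin m)) := by
        ext q
        simp
      rw [h2, Set.ncard_coe_finset] at h1
      exact h1
    · intro q hq q' hq' h
      have hq1 : q ≠ p.1 := by simpa using (Finset.mem_filter.1 hq).2.1
      rcases ww_inj h with h | h
      · exact h.2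
      · exact absurd h.2 hq1
  have hall : ∀ s : Finset ↥(gd Z), s.card ≤ (s.biUnion t).card := by
    intro s
    have h2 : s.card * 2 ≤ (s.biUnion t).card * 2 := by
      apply Finset.card_mul_le_card_mul (fun (p : ↥(gd Z)) e => e ∈ t p)
      · intro p hp
        refine (hcard p).trans (Finset.card_le_card ?_)
        intro e he
        rw [Finset.mem_bipartiteAbove]
        exact ⟨Finset.mem_biUnion.2 ⟨p, hp, he⟩, he⟩
      · intro e he
        obtain ⟨p₀, hp₀, he₀⟩ := Finset.mem_biUnion.1 he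
        obtain ⟨q₀, hq₀, rfl⟩ := (hmem p₀ e).1 he₀
        have h3 : (s.bipartiteBelow (fun (p : ↥(gd Z)) e => e ∈ t p) (ww p₀.1 q₀)).card
            = ((s.bipartiteBelow (fun (p : ↥(gd Z)) e => e ∈ t p) (ww p₀.1 q₀)).image
              Subtype.val).card := by
          rw [Finset.card_image_of_injective _ Subtype.val_injective]
        rw [h3]
        refine (Finset.card_le_card (t := {p₀.1, q₀}) ?_).trans Finset.card_le_two
        intro x hx
        rw [Finset.mem_image] at hx
        obtain ⟨p, hp, rfl⟩ := hx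
        rw [Finset.mem_bipartiteBelow] at hp
        obtain ⟨q', -, hq'⟩ := (hmem p _).1 hp.2
        rw [Finset.mem_insert, Finset.mem_singleton]
        rcases ww_inj hq' with h | h
        · exact Or.inl h.1
        · exact Or.inr h.1
    omega
  obtain ⟨f, hf, hft⟩ := (Finset.all_card_le_biUnion_card_iff_exists_injective t).1 hall
  choose g hg1 hg2 using fun p => (hmem p (f p)).1 (hft p)
  refine ⟨fun p => if hp : p ∈ gd Z then g ⟨p, hp⟩ else p, ?_, ?_⟩
  · intro p hp
    simp only [dif_pos hp]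
    exact hg1 ⟨p, hp⟩
  · intro p hp p' hp' h
    simp only [dif_pos hp, dif_pos hp'] at h
    have h1 := hg2 ⟨p, hp⟩
    have h2 := hg2 ⟨p', hp'⟩
    simp only at h1 h2
    rw [h1, h2] at h
    exact congrArg Subtype.val (hf h)

end Pool.Agent.MP97f6bf
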