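import Mathlib
import Pool.Agent.Lib.MP_97f6bf_co.Grid

set_option autoImplicit false

namespace Pool.Agent.MP97f6bf

open Function

theorem formPerm_orb {α : Type} [DecidableEq α] (l : List α) (hl : l.Nodup) (hall : ∀ x, x ∈ l)
    (x y : α) : ∃ k : ℕ, (l.formPerm)^[k] x = y := by
  obtain ⟨i, hi, rfl⟩ := List.getElem_of_mem (hall x)
  obtain ⟨j, hj, rfl⟩ := List.getElem_of_mem (hall y)
  refine ⟨j + (l.length - i), ?_⟩
  have h1 := List.formPerm_pow_apply_getElem l hl (j + (l.length - i)) i hi
  rw [Equiv.Perm.iterate_eq_pow, h1]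
  congr 1
  have h2 : i + (j + (l.length - i)) = j + l.length := by omega
  rw [h2, Nat.add_mod_right, Nat.mod_eq_of_lt hj]

theorem formPerm_succ {α : Type} [DecidableEq α] (l a b : List α) (x y : α)
    (h : l = a ++ x :: y :: b) (hl : l.Nodup) : l.formPerm x = y := by
  subst h
  have h1 := List.formPerm_apply_lt_getElem (a ++ x :: y :: b) hl a.length
    (by simp)
  simpa using h1

theorem finRange_split (n : ℕ) (i : Fin n) :
    ∃ a b, List.finRange (n + 1) = a ++ i.castSucc :: i.succ :: b := by
  refine ⟨(List.finRange (n + 1)).take i.val, (List.finRange (n + 1)).drop (i.val + 1 + 1), ?_⟩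
  have h1 : i.val < (List.finRange (n + 1)).length := by simp
  have h2 : i.val + 1 < (List.finRange (n + 1)).length := by simp
  conv_lhs => rw [← List.take_append_drop i.val (List.finRange (n + 1))]
  rw [List.drop_eq_getElem_cons h1, List.drop_eq_getElem_cons h2]
  congr 2
  · simp only [List.getElem_finRange]
    rfl
  · congr 1
    simp only [List.getElem_finRange]
    rfl

section

variable (k : ℕ)

/-- the first six vertices -/
def Lhead : List (VV (k + 1)) := (List.finRange 6).map Sum.inl

/-- row by row -/
def Lrows : List (VV (k + 1)) :=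
  (List.finRange (k + 1)).flatMap (fun p => (List.finRange (k + 1)).map (fun q => Sum.inr (p, q)))

/-- the pairs above the diagonal -/
def prs : List (Fin (k + 1) × Fin (k + 1)) :=
  ((List.finRange (k + 1)).product (List.finRange (k + 1))).filter (fun x => x.1 < x.2)

/-- pair by pair -/
def Lpairs : List (VV (k + 1)) :=
  (prs k).flatMap (fun x => [Sum.inr x, Sum.inr x.swap]) ++
    (List.finRange (k + 1)).map (fun p => Sum.inr (p, p))

/-- the two cyclic orders -/
def LL (b : Bool) : List (VV (k + 1)) := Lhead k ++ (if b then Lpairs k else Lrows k)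

theorem Lhead_nodup : (Lhead k).Nodup :=
  (List.nodup_finRange 6).map Sum.inl_injective

theorem Lrows_nodup : (Lrows k).Nodup := by
  unfold Lrows
  rw [List.nodup_flatMap]
  constructor
  · intro p _
    apply (List.nodup_finRange _).map
    intro a b h
    simpa using h
  · apply (List.nodup_finRange _).pairwise_of_forall_ne
    intro p _ p' _ hne x hx hx'
    rw [List.mem_map] at hx hx'
    obtain ⟨q, -, rfl⟩ := hx
    obtain ⟨q', -, h⟩ := hx'
    simp only [Sum.inr.injEq, Prod.mk.injEq] at h
    exact hne h.1.symm

theorem mem_prs (x : Fin (k + 1) × Fin (k + 1)) : x ∈ prs k ↔ x.1 < x.2 := by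
  obtain ⟨a, b⟩ := x
  simp [prs, List.mem_filter]

theorem prs_nodup : (prs k).Nodup :=
  ((List.nodup_finRange _).product (List.nodup_finRange _)).filter _

theorem Lpairs_nodup : (Lpairs k).Nodup := by
  unfold Lpairs
  rw [List.nodup_append]
  refine ⟨?_, ?_, ?_⟩
  · rw [List.nodup_flatMap]
    constructor
    · intro x hx
      rw [mem_prs] at hx
      simp only [List.nodup_cons, List.mem_singleton, Sum.inr.injEq, List.not_mem_nil,
        not_false_eq_true, List.nodup_nil, and_self, and_true]
      intro h
      have h1 := congrArg Prod.fst h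
      simp only [Prod.fst_swap] at h1
      rw [h1] at hx
      exact lt_irrefl _ hx
    · apply (prs_nodup k).pairwise_of_forall_ne
      intro x hx y hy hne
      rw [mem_prs] at hx hy
      intro z hz hz'
      simp only [List.mem_cons, List.not_mem_nil, or_false] at hz hz'
      rcases hz with rfl | rfl <;> rcases hz' with h | h <;>
        simp only [Sum.inr.injEq] at h
      · exact hne h
      · rw [h] at hx
        simp only [Prod.fst_swap, Prod.snd_swap] at hx
        exact lt_asymm hx hy
      · rw [← h] at hy
        simp only [Prod.fst_swap, Prod.snd_swap] at hy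
        exact lt_asymm hx hy
      · exact hne (Prod.swap_injective h)
  · apply (List.nodup_finRange _).map
    intro a b h
    simpa using h
  · intro a ha b hb hab
    rw [List.mem_flatMap] at ha
    rw [List.mem_map] at hb
    obtain ⟨x, hx, hax⟩ := ha
    obtain ⟨p, -, rfl⟩ := hb
    rw [mem_prs] at hx
    subst hab
    simp only [List.mem_cons, List.not_mem_nil, or_false, Sum.inr.injEq] at hax
    rcases hax with h | h
    · rw [← h] at hx
      exact lt_irrefl _ hx
    · have h1 := congrArg Prod.swap h
      simp only [Prod.swap_swap, Prod.swap_prod_mk] at h1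
      rw [← h1] at hx
      exact lt_irrefl _ hx

theorem mem_Lhead (i : Fin 6) : (Sum.inl i : VV (k + 1)) ∈ Lhead k := by
  simp [Lhead]

theorem mem_Lrows (p q : Fin (k + 1)) : (Sum.inr (p, q) : VV (k + 1)) ∈ Lrows k := by
  simp [Lrows]

theorem mem_Lpairs (p q : Fin (k + 1)) : (Sum.inr (p, q) : VV (k + 1)) ∈ Lpairs k := by
  unfold Lpairs
  rw [List.mem_append]
  rcases lt_trichotomy p q with h | h | h
  · left
    rw [List.mem_flatMap]
    exact ⟨(p, q), (mem_prs k _).2 h, by simp⟩
  · right
    subst h
    simp
  · left
    rw [List.mem_flatMap]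
    exact ⟨(q, p), (mem_prs k _).2 h, by simp⟩

theorem notMem_inl_Lrows (i : Fin 6) : (Sum.inl i : VV (k + 1)) ∉ Lrows k := by
  simp [Lrows]

theorem notMem_inl_Lpairs (i : Fin 6) : (Sum.inl i : VV (k + 1)) ∉ Lpairs k := by
  simp [Lpairs]

theorem LL_nodup (b : Bool) : (LL k b).Nodup := by
  unfold LL
  rw [List.nodup_append]
  refine ⟨Lhead_nodup k, ?_, ?_⟩
  · cases b
    · exact Lrows_nodup k
    · exact Lpairs_nodup k
  · intro x hx y hy hxy
    subst hxy
    simp only [Lhead, List.mem_map] at hx
    obtain ⟨i, -, rfl⟩ := hx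
    cases b
    · exact notMem_inl_Lrows k i hy
    · exact notMem_inl_Lpairs k i hy

theorem mem_LL (b : Bool) (x : VV (k + 1)) : x ∈ LL k b := by
  unfold LL
  rw [List.mem_append]
  rcases x with i | ⟨p, q⟩
  · exact Or.inl (mem_Lhead k i)
  · right
    cases b
    · exact mem_Lrows k p q
    · exact mem_Lpairs k p q

/-- the two cyclic permutations -/
def sg (b : Bool) : Equiv.Perm (VV (k + 1)) := (LL k b).formPerm

theorem sg_head (b : Bool) (i : Fin 5) :
    sg k b (Sum.inl i.castSucc) = Sum.inl i.succ := by
  obtain ⟨u, v, huv⟩ := finRange_split 5 i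
  unfold sg
  apply formPerm_succ _ (u.map Sum.inl) (v.map Sum.inl ++ (if b then Lpairs k else Lrows k))
  · unfold LL Lhead
    rw [huv]
    simp
  · exact LL_nodup k b

theorem sg_rows (p : Fin (k + 1)) (q : Fin k) :
    sg k false (Sum.inr (p, q.castSucc)) = Sum.inr (p, q.succ) := by
  obtain ⟨u, v, huv⟩ := finRange_split k q
  obtain ⟨u', v', huv'⟩ := List.append_of_mem (List.mem_finRange p)
  unfold sg
  apply formPerm_succ _
    (Lhead k ++ (u'.flatMap (fun p => (List.finRange (k + 1)).map (fun q => Sum.inr (p, q)))
      ++ u.map (fun q => Sum.inr (p, q))))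
    (v.map (fun q => Sum.inr (p, q)) ++
      v'.flatMap (fun p => (List.finRange (k + 1)).map (fun q => Sum.inr (p, q))))
  · have h1 : Lrows k = u'.flatMap (fun p => (List.finRange (k + 1)).map (fun q => Sum.inr (p, q)))
        ++ ((List.finRange (k + 1)).map (fun q => Sum.inr (p, q)) ++
        v'.flatMap (fun p => (List.finRange (k + 1)).map (fun q => Sum.inr (p, q)))) := by
      conv_lhs => unfold Lrows
      rw [show (List.finRange (k + 1)).flatMap
          (fun p => (List.finRange (k + 1)).map (fun q => (Sum.inr (p, q) : VV (k + 1)))) =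
          (u' ++ p :: v').flatMap
          (fun p => (List.finRange (k + 1)).map (fun q => (Sum.inr (p, q) : VV (k + 1)))) by
        rw [← huv']]
      rw [List.flatMap_append, List.flatMap_cons]
    have h2 : ((List.finRange (k + 1)).map (fun q => (Sum.inr (p, q) : VV (k + 1)))) =
        u.map (fun q => Sum.inr (p, q)) ++ Sum.inr (p, q.castSucc) :: Sum.inr (p, q.succ) ::
        v.map (fun q => Sum.inr (p, q)) := by
      rw [huv]; simp
    show Lhead k ++ (if false then Lpairs k else Lrows k) = _
    rw [if_neg (by decide), h1, h2]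
    simp
  · exact LL_nodup k false

theorem sg_pairs (p q : Fin (k + 1)) (h : p < q) :
    sg k true (Sum.inr (p, q)) = Sum.inr (q, p) := by
  obtain ⟨u, v, huv⟩ := List.append_of_mem ((mem_prs k (p, q)).2 h)
  unfold sg
  apply formPerm_succ _
    (Lhead k ++ u.flatMap (fun x => [Sum.inr x, Sum.inr x.swap]))
    (v.flatMap (fun x => [Sum.inr x, Sum.inr x.swap]) ++
      (List.finRange (k + 1)).map (fun p => Sum.inr (p, p)))
  · show Lhead k ++ (if true then Lpairs k else Lrows k) = _
    rw [if_pos rfl]
    unfold Lpairs
    rw [huv, List.flatMap_append, List.flatMap_cons]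
    simp
  · exact LL_nodup k true

/-- The structure exists. -/
def grid : Grid k where
  G := {
    σ := sg k
    ι := fun i => Sum.inl i.castSucc
    inj := by
      intro a b h
      simpa using h
    step := by
      intro b i hi
      rw [sg_head]
      congr 1
      revert hi
      revert i
      decide
    v5 := Sum.inl 5
    last := by
      intro b
      exact sg_head k b 4
    v5_notMem := by
      rintro ⟨i, hi⟩
      simp only [Sum.inl.injEq] at hi
      revert hi
      revert i
      decide
    v6 := Sum.inr (0, 0)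
    v6_notMem := by
      rintro ⟨i, hi⟩
      cases hi
    v6_ne := by
      intro h
      cases h
    orb := fun b x y => formPerm_orb (LL k b) (LL_nodup k b) (mem_LL k b) x y
  }
  ι_eq := fun i => rfl
  v5_eq := rfl
  swp := fun p q h => sg_pairs k p q h
  nxt := fun p q => sg_rows k p q

end

end Pool.Agent.MP97f6bf
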