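import Mathlib
import Pool.Agent.Lib.MP_97f6bf_co.Grid

set_option autoImplicit false

namespace Pool.Agent.MP97f6bf

open Set Function

open Classical in
/-- If `Z` and `Z'` cover all connecting edges, one of them has few rows of degree at least 2. -/
theorem small_of {m c : ℕ} (Z Z' : Set (VV m × Bool))
    (hcov : ∀ p q : Fin m, p ≠ q → (ww p q ∈ Z ∨ ww p q ∈ Z')) (hm : 4 ≤ m)
    (h : (gd Z).ncard + (gd Z').ncard ≤ m + c) :
    (gd Z).ncard ≤ c + 2 ∨ (gd Z').ncard ≤ c + 2 := by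
  have hfin : ∀ S : Set (Fin m), S.Finite := fun S => Set.toFinite S
  -- every row is good for one of the two sets
  have hall : gd Z ∪ gd Z' = univ := by
    rw [Set.eq_univ_iff_forall]
    intro p
    by_contra hp
    have hp1 : deg Z p < 2 := by
      by_contra h1; exact hp (Or.inl (not_lt.1 h1))
    have hp2 : deg Z' p < 2 := by
      by_contra h1; exact hp (Or.inr (not_lt.1 h1))
    have h1 : ({p} : Set (Fin m))ᶜ ⊆ {q | q ≠ p ∧ ww p q ∈ Z} ∪ {q | q ≠ p ∧ ww p q ∈ Z'} := by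
      intro q hq
      have hqp : q ≠ p := hq
      rcases hcov p q (Ne.symm hqp) with h2 | h2
      · exact Or.inl ⟨hqp, h2⟩
      · exact Or.inr ⟨hqp, h2⟩
    have h2 := Set.ncard_le_ncard h1 (hfin _)
    have h3 := Set.ncard_union_le {q | q ≠ p ∧ ww p q ∈ Z} {q | q ≠ p ∧ ww p q ∈ Z'}
    have h4 := Set.ncard_add_ncard_compl ({p} : Set (Fin m))
    rw [Set.ncard_singleton, Nat.card_eq_fintype_card, Fintype.card_fin] at h4
    unfold deg at hp1 hp2
    omega
  have hC : (gd Z ∩ gd Z').ncard ≤ c := by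
    have h1 := Set.ncard_union_add_ncard_inter (gd Z) (gd Z')
    rw [hall, Set.ncard_univ, Nat.card_eq_fintype_card, Fintype.card_fin] at h1
    omega
  set A := gd Z \ gd Z' with hA
  set B := gd Z' \ gd Z with hB
  have hA' : ∀ p ∈ A, {q | q ≠ p ∧ ww p q ∈ Z'}.ncard ≤ 1 := by
    intro p hp
    have : ¬ (2 ≤ deg Z' p) := hp.2
    unfold deg at this
    omega
  have hB' : ∀ q ∈ B, {p | p ≠ q ∧ ww q p ∈ Z}.ncard ≤ 1 := by
    intro p hp
    have : ¬ (2 ≤ deg Z p) := hp.2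
    unfold deg at this
    omega
  have hprod : A.ncard * B.ncard ≤ A.ncard + B.ncard := by
    set a := A.toFinset with ha
    set b := B.toFinset with hb
    have ea : A.ncard = a.card := Set.ncard_eq_toFinset_card' A
    have eb : B.ncard = b.card := Set.ncard_eq_toFinset_card' B
    rw [ea, eb, ← Finset.card_product]
    set S1 := (a ×ˢ b).filter (fun x => ww x.1 x.2 ∈ Z') with hS1
    set S2 := (a ×ˢ b).filter (fun x => ww x.1 x.2 ∈ Z) with hS2
    have hne : ∀ p ∈ a, ∀ q ∈ b, q ≠ p := by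
      intro p hp q hq hpq
      rw [ha, Set.mem_toFinset] at hp
      rw [hb, Set.mem_toFinset] at hq
      rw [hpq] at hq
      exact hp.2 hq.1
    have hsub : a ×ˢ b ⊆ S1 ∪ S2 := by
      rintro ⟨p, q⟩ hx
      rw [Finset.mem_product] at hx
      rw [Finset.mem_union, hS1, hS2, Finset.mem_filter, Finset.mem_filter, Finset.mem_product]
      rcases hcov p q (hne p hx.1 q hx.2).symm with h1 | h1
      · exact Or.inr ⟨hx, h1⟩
      · exact Or.inl ⟨hx, h1⟩
    have c1 : S1.card ≤ a.card := by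
      apply Finset.card_le_card_of_injOn Prod.fst
      · intro x hx
        rw [Finset.mem_coe, hS1, Finset.mem_filter, Finset.mem_product] at hx
        exact hx.1.1
      · rintro ⟨p, q⟩ hx ⟨p', q'⟩ hx' heq
        rw [Finset.mem_coe, hS1, Finset.mem_filter, Finset.mem_product] at hx hx'
        simp only at heq hx hx'
        subst heq
        have h1 := hA' p (by have := hx.1.1; rwa [ha, Set.mem_toFinset] at this)
        rw [Set.ncard_le_one (hfin _)] at h1
        have := h1 q ⟨hne p hx.1.1 q hx.1.2, hx.2⟩ q' ⟨hne p hx.1.1 q' hx'.1.2, hx'.2⟩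
        rw [this]
    have c2 : S2.card ≤ b.card := by
      apply Finset.card_le_card_of_injOn Prod.snd
      · intro x hx
        rw [Finset.mem_coe, hS2, Finset.mem_filter, Finset.mem_product] at hx
        exact hx.1.2
      · rintro ⟨p, q⟩ hx ⟨p', q'⟩ hx' heq
        rw [Finset.mem_coe, hS2, Finset.mem_filter, Finset.mem_product] at hx hx'
        simp only at heq hx hx'
        subst heq
        have h1 := hB' q (by have := hx.1.2; rwa [hb, Set.mem_toFinset] at this)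
        rw [Set.ncard_le_one (hfin _)] at h1
        have := h1 p ⟨(hne p hx.1.1 q hx.1.2).symm, by rw [ww_comm]; exact hx.2⟩ p'
          ⟨(hne p' hx'.1.1 q hx.1.2).symm, by rw [ww_comm]; exact hx'.2⟩
        rw [this]
    have := Finset.card_le_card hsub
    have := Finset.card_union_le S1 S2
    omega
  have hgZ : (gd Z).ncard = (gd Z ∩ gd Z').ncard + A.ncard := by
    rw [hA, Set.ncard_inter_add_ncard_sdiff_eq_ncard _ _ (hfin _)]
  have hgZ' : (gd Z').ncard = (gd Z ∩ gd Z').ncard + B.ncard := by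
    rw [hB, Set.inter_comm, Set.ncard_inter_add_ncard_sdiff_eq_ncard _ _ (hfin _)]
  by_cases hA2 : A.ncard ≤ 2
  · left; omega
  · by_cases hB2 : B.ncard ≤ 2
    · right; omega
    · exfalso
      have h1 : 3 ≤ A.ncard := by omega
      have h2 : 3 ≤ B.ncard := by omega
      nlinarith

namespace Grid

variable {k : ℕ} (H : Grid k)

theorem inr_notMem (x : Fin (k + 1) × Fin (k + 1)) :
    (Sum.inr x : VV (k + 1)) ∉ range H.G.ι := by
  rintro ⟨i, hi⟩
  rw [H.ι_eq] at hi
  cases hi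

theorem ww_outer (p q : Fin (k + 1)) : (ww p q).1 ∉ range H.G.ι := by
  unfold ww
  split_ifs
  · exact H.inr_notMem _
  · exact H.inr_notMem _

theorem SS_outer : SS k ⊆ {e | e.1 ∉ range H.G.ι} := by
  rintro _ ⟨x, rfl⟩
  exact H.inr_notMem _

theorem X_encard {M' : Matroid (VV (k + 1) × Bool)} {X' : Set (VV (k + 1) × Bool)}
    (hX : BaseForm (MM H.G.data) M' X') (hout : {e | e.1 ∉ range H.G.ι} ⊆ M'.E) :
    X'.encard ≤ 10 := by
  have h1 : X' ⊆ H.G.j '' (univ : Set (Fin 5 × Bool)) := by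
    rintro ⟨v, d⟩ he
    by_contra hcon
    have h2 : v ∉ range H.G.ι := by
      rintro ⟨i, rfl⟩
      exact hcon ⟨(i, d), mem_univ _, rfl⟩
    exact Set.disjoint_left.1 hX.disj he (hout h2)
  calc X'.encard ≤ (H.G.j '' (univ : Set (Fin 5 × Bool))).encard := Set.encard_le_encard h1
    _ = (univ : Set (Fin 5 × Bool)).encard := H.G.j_inj.encard_image _
    _ = 10 := by
      rw [Set.encard_univ]
      simp

theorem rank_good (hk : 1 ≤ k) {M' : Matroid (VV (k + 1) × Bool)}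
    {X' : Set (VV (k + 1) × Bool)}
    (hX : BaseForm (MM H.G.data) M' X') (hout : {e | e.1 ∉ range H.G.ι} ⊆ M'.E)
    {Z : Set (VV (k + 1) × Bool)} (hZ : Z ⊆ M'.E) :
    (((k + 1) * k + (gd Z).ncard : ℕ) : ℕ∞) ≤ M'.eRk (Z ∪ SS k) + 10 := by
  classical
  have hfin : ∀ S : Set (VV (k + 1) × Bool), S.Finite := fun S => Set.toFinite S
  have hSE : SS k ⊆ M'.E := H.SS_outer.trans hout
  suffices hs : ∃ J, J ⊆ Z ∪ SS k ∧ (MM H.G.data).Indep J ∧
      J.ncard = (k + 1) * k + (gd Z).ncard by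
    obtain ⟨J, hJ1, hJ2, hJ3⟩ := hs
    have hJE : J ⊆ M'.E := hJ1.trans (union_subset hZ hSE)
    calc (((k + 1) * k + (gd Z).ncard : ℕ) : ℕ∞) = J.encard := by
          rw [← hJ3, (hfin J).cast_ncard_eq]
      _ ≤ M'.eRk J + X'.encard := rk_lower hX hJE hJ2
      _ ≤ M'.eRk (Z ∪ SS k) + 10 := add_le_add (M'.eRk_mono hJ1) (H.X_encard hX hout)
  by_cases hg : (gd Z).Nonempty
  · obtain ⟨q, hq1, hq2⟩ := hall_rows Z
    set P : Finset (Fin (k + 1)) := (gd Z).toFinset with hP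
    have hPm : ∀ p, p ∈ P ↔ p ∈ gd Z := by
      intro p; rw [hP, Set.mem_toFinset]
    have hPne : P.Nonempty := by
      obtain ⟨p, hp⟩ := hg
      exact ⟨p, (hPm p).2 hp⟩
    have hi : ∀ p ∈ P, ∀ p' ∈ P, ww p (q p) = ww p' (q p') → p = p' :=
      fun p hp p' hp' h => hq2 p ((hPm p).1 hp) p' ((hPm p').1 hp') h
    refine ⟨_, ?_, H.indep_J P hPne q (fun p hp => (hq1 p ((hPm p).1 hp)).1) hi, ?_⟩
    · rintro e (he | ⟨p, hp, rfl⟩)
      · exact Or.inr he
      · exact Or.inl (hq1 p ((hPm p).1 hp)).2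
    · rw [J_ncard P q hi, Set.ncard_eq_toFinset_card']
  · rw [Set.not_nonempty_iff_eq_empty] at hg
    rw [hg, Set.ncard_empty, add_zero, ← SS_ncard k]
    refine ⟨SS k, subset_union_right, ?_, rfl⟩
    have h01 : (⟨1, by omega⟩ : Fin (k + 1)) ≠ 0 := by
      intro h
      have := congrArg Fin.val h
      simp at this
    have := H.indep_J {0} (Finset.singleton_nonempty _) (fun _ => ⟨1, by omega⟩)
      (by intro p hp; rw [Finset.mem_singleton] at hp; rw [hp]; exact h01)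
      (by
        intro p hp p' hp' _
        rw [Finset.mem_singleton] at hp hp'
        rw [hp, hp'])
    exact this.subset subset_union_left

/-- The width condition makes one of the two sides small. -/
theorem side_small (hk : 3 ≤ k) {M' : Matroid (VV (k + 1) × Bool)}
    (hM' : M'.IsMinor (MM H.G.data)) (hout : {e | e.1 ∉ range H.G.ι} ⊆ M'.E)
    {Z : Set (VV (k + 1) × Bool)} (hZ : Z ⊆ M'.E) (n₀ : ℕ)
    (hw : M'.eRk Z + M'.eRk (M'.E \ Z) ≤ M'.eRank + (n₀ : ℕ∞)) :
    (gd Z).ncard ≤ n₀ + 28 ∨ (gd (M'.E \ Z)).ncard ≤ n₀ + 28 := by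
  obtain ⟨X', hX⟩ := exists_baseForm hM'
  have hfin : ∀ S : Set (VV (k + 1) × Bool), S.Finite := fun S => Set.toFinite S
  have hfinM : M'.Finite := ⟨hfin _⟩
  have hSE : SS k ⊆ M'.E := H.SS_outer.trans hout
  have hrank : M'.eRank ≤ ((6 + (k + 1) * (k + 1) : ℕ) : ℕ∞) := by
    obtain ⟨B', hB'⟩ := M'.exists_isBase
    have h1 := ((MM_isBase _ _).1 ((hX.iff B' hB'.subset_ground).1 hB')).1.ncard_eq
    have h2 : Nat.card (VV (k + 1)) = 6 + (k + 1) * (k + 1) := by
      rw [Nat.card_eq_fintype_card]; simp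
    rw [← hB'.encard_eq_eRank, ← h2, ← h1, (hfin _).cast_ncard_eq]
    exact Set.encard_le_encard subset_union_left
  have h1 := H.rank_good (by omega) hX hout hZ
  have h2 := H.rank_good (by omega) hX hout (sdiff_subset : M'.E \ Z ⊆ M'.E)
  have ha : (((k + 1) * k + (gd Z).ncard - 10 : ℕ) : ℕ∞) ≤ M'.eRk (Z ∪ SS k) := by
    have h3 : M'.eRk (Z ∪ SS k) ≠ ⊤ := by
      rw [Matroid.eRk_ne_top_iff]
      exact M'.isRkFinite_of_finite (hfin _)
    obtain ⟨r, hr⟩ := ENat.ne_top_iff_exists.1 h3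
    rw [← hr] at h1 ⊢
    norm_cast at h1 ⊢
    omega
  have hb : (((k + 1) * k + (gd (M'.E \ Z)).ncard - 10 : ℕ) : ℕ∞) ≤
      M'.eRk ((M'.E \ Z) ∪ SS k) := by
    have h3 : M'.eRk ((M'.E \ Z) ∪ SS k) ≠ ⊤ := by
      rw [Matroid.eRk_ne_top_iff]
      exact M'.isRkFinite_of_finite (hfin _)
    obtain ⟨r, hr⟩ := ENat.ne_top_iff_exists.1 h3
    rw [← hr] at h2 ⊢
    norm_cast at h2 ⊢
    omega
  have hn : M'.eRk Z + M'.eRk (M'.E \ Z) ≤ ((6 + (k + 1) * (k + 1) + n₀ : ℕ) : ℕ∞) := by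
    refine hw.trans ?_
    rw [Nat.cast_add]
    exact add_le_add hrank le_rfl
  have hu := uncross M' hZ hSE ha hb hn
  rw [SS_ncard] at hu
  have hsum : (gd Z).ncard + (gd (M'.E \ Z)).ncard ≤ (k + 1) + (n₀ + 26) := by
    have e1 : (k + 1) * (k + 1) = (k + 1) * k + (k + 1) := by ring
    rw [e1] at hu
    omega
  have hcov : ∀ p q : Fin (k + 1), p ≠ q → (ww p q ∈ Z ∨ ww p q ∈ M'.E \ Z) := by
    intro p q _
    by_cases h : ww p q ∈ Z
    · exact Or.inl h
    · exact Or.inr ⟨hout (H.ww_outer p q), h⟩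
  exact small_of Z (M'.E \ Z) hcov (by omega) hsum

end Grid

end Pool.Agent.MP97f6bf
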