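import Mathlib
import Pool.Agent.Lib.MP_97f6bf_co.Small

set_option autoImplicit false

namespace Pool.Agent.MP97f6bf

open Set Function

open Classical in
theorem exists_sink {U : Type} [Finite U] [Nonempty U] (T : SimpleGraph U) (hA : T.IsAcyclic)
    (hC : T.Preconnected) (big : U → U → Prop)
    (hno : ∀ u v, T.Adj u v → ¬ (big u v ∧ big v u)) :
    ∃ v, ∀ u, T.Adj v u → ¬ big u v := by
  by_contra hcon
  push Not at hcon
  choose g hg1 hg2 using hcon
  have := Fintype.ofFinite U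
  have hT : T.IsTree := ⟨⟨hC⟩, hA⟩
  have hcard := hT.card_edgeFinset
  have hmaps : ∀ v ∈ (Finset.univ : Finset U), s(v, g v) ∈ T.edgeFinset := by
    intro v _
    rw [SimpleGraph.mem_edgeFinset]
    exact hg1 v
  obtain ⟨v, -, w, -, hvw, heq⟩ := Finset.exists_ne_map_eq_of_card_lt_of_maps_to
    (by rw [Finset.card_univ]; omega) hmaps
  rw [Sym2.eq_iff] at heq
  rcases heq with h | h
  · exact hvw h.1
  · have h1 := hg2 v
    have h2 := hg2 w
    have h3 := hg1 v
    rw [h.2] at h1 h3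
    rw [← h.1] at h2
    exact hno v w h3 ⟨h2, h1⟩

theorem gd_mono {m : ℕ} {Z Z' : Set (VV m × Bool)} (h : Z ⊆ Z') : gd Z ⊆ gd Z' := by
  intro p hp
  have h1 : 2 ≤ deg Z p := hp
  refine le_trans h1 ?_
  apply Set.ncard_le_ncard _ (Set.toFinite _)
  rintro q ⟨hq1, hq2⟩
  exact ⟨hq1, h hq2⟩

open Classical in
theorem Grid.tree_contra {k : ℕ} (H : Grid k) (n₀ : ℕ) (hk : k = 3 * (n₀ + 28) + 5)
    {M' : Matroid (VV (k + 1) × Bool)}
    (hM' : M'.IsMinor (MM H.G.data)) (hout : {e | e.1 ∉ range H.G.ι} ⊆ M'.E)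
    {U : Type} (hU : Finite U) (T : SimpleGraph U) (hA : T.IsAcyclic) (hC : T.Preconnected)
    (h3 : ∀ v, (T.neighborSet v).ncard ≤ 3)
    (f : ↥M'.E ≃ {v : U // (T.neighborSet v).ncard ≤ 1})
    (hw : ∀ u v : U, T.Adj u v →
      M'.eRk {x | ∃ h : x ∈ M'.E, (T.deleteEdges {s(u, v)}).Reachable u (f ⟨x, h⟩).1}
        + M'.eRk (M'.E \ {x | ∃ h : x ∈ M'.E,
            (T.deleteEdges {s(u, v)}).Reachable u (f ⟨x, h⟩).1})
        ≤ M'.eRank + (n₀ : ℕ∞)) : False := by
  have hfin : ∀ S : Set (VV (k + 1) × Bool), S.Finite := fun S => Set.toFinite S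
  set side : U → U → Set (VV (k + 1) × Bool) := fun u v =>
    {x | ∃ h : x ∈ M'.E, (T.deleteEdges {s(u, v)}).Reachable u (f ⟨x, h⟩).1} with hside
  have hsideE : ∀ u v, side u v ⊆ M'.E := by
    rintro u v x ⟨h, -⟩
    exact h
  -- nonempty tree
  have hwE : ∀ p q : Fin (k + 1), ww p q ∈ M'.E := fun p q => hout (H.ww_outer p q)
  have hUne : Nonempty U := ⟨(f ⟨ww 0 0, hwE 0 0⟩).1⟩
  have hdisj : ∀ u v, T.Adj u v → side v u ⊆ M'.E \ side u v := by
    rintro u v huv x ⟨hx, hr⟩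
    refine ⟨hx, ?_⟩
    rintro ⟨hx', hr'⟩
    have hb : T.IsBridge s(u, v) := (SimpleGraph.isAcyclic_iff_forall_adj_isBridge.1 hA) huv
    rw [SimpleGraph.isBridge_iff] at hb
    apply hb
    rw [Sym2.eq_swap] at hr
    exact hr'.trans hr.symm
  obtain ⟨v, hv⟩ := exists_sink T hA hC (fun u v => ¬ (gd (side u v)).ncard ≤ n₀ + 28) (by
    rintro u v huv ⟨h1, h2⟩
    rcases H.side_small (by omega) hM' hout (hsideE u v) n₀ (hw u v huv) with h | h
    · exact h1 h
    · apply h2
      exact (Set.ncard_le_ncard (gd_mono (hdisj u v huv)) (Set.toFinite _)).trans h)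
  push Not at hv
  -- every other element lies on the side of a neighbour
  have hcover : ∀ x (hx : x ∈ M'.E), (f ⟨x, hx⟩).1 ≠ v → ∃ u, T.Adj v u ∧ x ∈ side u v := by
    intro x hx hne
    obtain ⟨p, hp⟩ := (hC v (f ⟨x, hx⟩).1).exists_isPath
    cases p with
    | nil => exact absurd rfl hne
    | cons h p' =>
      rename_i u
      rw [SimpleGraph.Walk.cons_isPath_iff] at hp
      refine ⟨u, h, hx, ?_⟩
      rw [SimpleGraph.reachable_deleteEdges_iff_exists_walk]
      refine ⟨p', fun hmem => hp.2 ?_⟩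
      exact p'.snd_mem_support_of_mem_edges hmem
  -- a row that is not good for any side
  have hNfin : (T.neighborSet v).Finite := Set.toFinite _
  set N : Finset U := hNfin.toFinset with hN
  have hNc : N.card ≤ 3 := by
    rw [hN, ← Set.ncard_eq_toFinset_card _ hNfin]
    exact h3 v
  have hNm : ∀ u, u ∈ N ↔ T.Adj v u := by
    intro u
    rw [hN, Set.Finite.mem_toFinset, SimpleGraph.mem_neighborSet]
  obtain ⟨p, hp⟩ : ∃ p : Fin (k + 1), ∀ u ∈ N, p ∉ gd (side u v) := by
    by_contra hcon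
    push Not at hcon
    have h1 : (Finset.univ : Finset (Fin (k + 1))) ⊆
        N.biUnion (fun u => (gd (side u v)).toFinset) := by
      intro p _
      obtain ⟨u, hu, hpu⟩ := hcon p
      rw [Finset.mem_biUnion]
      exact ⟨u, hu, by rw [Set.mem_toFinset]; exact hpu⟩
    have h2 := Finset.card_le_card h1
    have h4 := Finset.card_biUnion_le_card_mul N (fun u => (gd (side u v)).toFinset) (n₀ + 28)
      (by
        intro u hu
        rw [← Set.ncard_eq_toFinset_card']
        exact hv u ((hNm u).1 hu))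
    rw [Finset.card_univ, Fintype.card_fin] at h2
    have h5 : N.card * (n₀ + 28) ≤ 3 * (n₀ + 28) := Nat.mul_le_mul_right _ hNc
    omega
  -- count the connecting edges at row p
  have hwinj : ∀ q q' : Fin (k + 1), q ≠ p → ww p q = ww p q' → q = q' := by
    intro q q' hq h
    rcases ww_inj h with h | h
    · exact h.2
    · exact absurd h.2 hq
  have hlast : {q | q ≠ p ∧ (f ⟨ww p q, hwE p q⟩).1 = v}.ncard ≤ 1 := by
    rw [Set.ncard_le_one (Set.toFinite _)]
    rintro q ⟨hq1, hq2⟩ q' ⟨hq1', hq2'⟩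
    have h1 : f ⟨ww p q, hwE p q⟩ = f ⟨ww p q', hwE p q'⟩ := Subtype.ext (hq2.trans hq2'.symm)
    have h2 := congrArg Subtype.val (f.injective h1)
    exact hwinj q q' hq1 h2
  have hcov2 : (Finset.univ : Finset (Fin (k + 1))).erase p ⊆
      (N.biUnion (fun u => {q | q ≠ p ∧ ww p q ∈ side u v}.toFinset)) ∪
        {q | q ≠ p ∧ (f ⟨ww p q, hwE p q⟩).1 = v}.toFinset := by
    intro q hq
    have hqp : q ≠ p := Finset.ne_of_mem_erase hq
    rw [Finset.mem_union]
    by_cases hfv : (f ⟨ww p q, hwE p q⟩).1 = v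
    · right
      rw [Set.mem_toFinset]
      exact ⟨hqp, hfv⟩
    · left
      obtain ⟨u, hu, hxu⟩ := hcover _ (hwE p q) hfv
      rw [Finset.mem_biUnion]
      refine ⟨u, (hNm u).2 hu, ?_⟩
      rw [Set.mem_toFinset]
      exact ⟨hqp, hxu⟩
  have h6 := Finset.card_le_card hcov2
  have h7 := Finset.card_union_le (N.biUnion (fun u => {q | q ≠ p ∧ ww p q ∈ side u v}.toFinset))
    {q | q ≠ p ∧ (f ⟨ww p q, hwE p q⟩).1 = v}.toFinset
  have h8 := Finset.card_biUnion_le_card_mul N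
    (fun u => {q | q ≠ p ∧ ww p q ∈ side u v}.toFinset) 1 (by
      intro u hu
      have h9 : ¬ (2 ≤ deg (side u v) p) := hp u hu
      unfold deg at h9
      rw [← Set.ncard_eq_toFinset_card']
      omega)
  have h10 : ({q | q ≠ p ∧ (f ⟨ww p q, hwE p q⟩).1 = v}.toFinset).card ≤ 1 := by
    rw [← Set.ncard_eq_toFinset_card']
    exact hlast
  rw [Finset.card_erase_of_mem (Finset.mem_univ _), Finset.card_univ, Fintype.card_fin] at h6
  omega

end Pool.Agent.MP97f6bf
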